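import Mathlib

set_option autoImplicit false

namespace Pool.Agent.Lib.MP_2bc940_al

open Pointwise Filter Topology

section ball

variable {G : Type*} [Group G] [DecidableEq G]

lemma list_prod_mem_pow (S : Finset G) (h1 : (1 : G) ∈ S) (l : List G) (hl : ∀ x ∈ l, x ∈ S)
    (n : ℕ) (hn : l.length ≤ n) : l.prod ∈ S ^ n := by
  induction l generalizing n with
  | nil => simpa using Finset.one_mem_pow h1 
  | cons a l ih =>
    cases n with
    | zero => simp at hn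
    | succ n =>
      rw [pow_succ', List.prod_cons]
      apply Finset.mul_mem_mul (hl a (by simp))
      exact ih (fun x hx => hl x (by simp [hx])) n (by simpa using hn)

lemma mem_pow_iff_list (S : Finset G) (n : ℕ) (g : G) :
    g ∈ S ^ n ↔ ∃ l : List G, l.length = n ∧ (∀ x ∈ l, x ∈ S) ∧ l.prod = g := by
  induction n generalizing g with
  | zero =>
    simp only [pow_zero, Finset.mem_one]
    constructor
    · rintro rfl
      exact ⟨[], by simp⟩
    · rintro ⟨l, hl, -, rfl⟩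
      have : l = [] := List.length_eq_zero_iff.mp hl
      simp [this]
  | succ n ih =>
    rw [pow_succ', Finset.mem_mul]
    constructor
    · rintro ⟨a, ha, b, hb, rfl⟩
      obtain ⟨l, hl, hl2, rfl⟩ := (ih b).mp hb
      refine ⟨a :: l, by simp [hl], ?_, by simp⟩
      intro x hx
      rcases List.mem_cons.mp hx with rfl | hx
      · exact ha
      · exact hl2 x hx
    · rintro ⟨l, hl, hl2, rfl⟩
      cases l with
      | nil => simp at hl
      | cons a l =>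
        refine ⟨a, hl2 a (by simp), l.prod, ?_, by simp⟩
        exact (ih _).mpr ⟨l, by simpa using hl, fun x hx => hl2 x (by simp [hx]), rfl⟩

/-- the word ball of a symmetric generating set containing `1` is its `n`-th power -/
lemma ball_eq_pow (S : Finset G) (h1 : (1 : G) ∈ S) (hinv : ∀ x ∈ S, x⁻¹ ∈ S) (n : ℕ) :
    {g : G | ∃ l : List G, l.length ≤ n ∧ (∀ x ∈ l, x ∈ S ∨ x⁻¹ ∈ S) ∧ l.prod = g}
      = ((S ^ n : Finset G) : Set G) := by
  ext g
  simp only [Set.mem_ofPred_eq, Finset.mem_coe]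
  constructor
  · rintro ⟨l, hl, hl2, rfl⟩
    apply list_prod_mem_pow S h1 l _ n hl
    intro x hx
    rcases hl2 x hx with h | h
    · exact h
    · simpa using hinv _ h
  · intro hg
    obtain ⟨l, hl, hl2, rfl⟩ := (mem_pow_iff_list S n g).mp hg
    exact ⟨l, hl.le, fun x hx => Or.inl (hl2 x hx), rfl⟩

end ball

section limsup

lemma tendsto_poly_root (C : ℝ) (hC : 0 < C) (d : ℕ) :
    Tendsto (fun n : ℕ => (C * ((n : ℝ) + 1) ^ d) ^ ((1 : ℝ) / (n : ℝ))) atTop (𝓝 1) := by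
  have h1 : Tendsto (fun n : ℕ => C ^ ((1 : ℝ) / (n : ℝ))) atTop (𝓝 1) := by
    have : Tendsto (fun n : ℕ => (1 : ℝ) / (n : ℝ)) atTop (𝓝 0) := tendsto_one_div_atTop_nhds_zero_nat
    have h2 := (Real.continuousAt_const_rpow (a := C) (b := 0) hC.ne').tendsto.comp this
    rw [Real.rpow_zero] at h2
    exact h2
  have h2 : Tendsto (fun n : ℕ => ((n : ℝ) + 1) ^ ((d : ℝ) / (n : ℝ))) atTop (𝓝 1) := by
    have h3 := tendsto_rpow_div_mul_add (d : ℝ) 1 (-1) (by norm_num)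
    have h4 : Tendsto (fun n : ℕ => (n : ℝ) + 1) atTop atTop :=
      tendsto_atTop_add_const_right _ _ tendsto_natCast_atTop_atTop
    have h5 := h3.comp h4
    refine h5.congr ?_
    intro n
    simp
  have h3 := h1.mul h2
  rw [one_mul] at h3
  refine h3.congr ?_
  intro n
  rw [Real.mul_rpow hC.le (by positivity), ← Real.rpow_natCast, ← Real.rpow_mul (by positivity)]
  congr 2
  ring

lemma bdd_of_le {u : ℕ → ℝ} (M : ℝ) (hM : 1 ≤ M) (hu0 : ∀ n, 0 ≤ u n)
    (hu : ∀ n, u n ≤ M ^ n) :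
    ∀ n, (u n) ^ ((1 : ℝ) / (n : ℝ)) ≤ M := by
  intro n
  rcases Nat.eq_zero_or_pos n with rfl | hn
  · simpa using hM
  · calc (u n) ^ ((1 : ℝ) / (n : ℝ)) ≤ (M ^ n) ^ ((1 : ℝ) / (n : ℝ)) :=
        Real.rpow_le_rpow (hu0 n) (hu n) (by positivity)
      _ = M := by
        rw [one_div]
        exact Real.pow_rpow_inv_natCast (by linarith) hn.ne'

/-- upper bound for the growth rate -/
lemma limsup_root_le {u : ℕ → ℝ} (hu0 : ∀ n, 0 ≤ u n) (C : ℝ) (hC : 0 < C) (d : ℕ) (R : ℝ)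
    (hR : 0 ≤ R) (hu : ∀ n : ℕ, 1 ≤ n → u n ≤ C * ((n : ℝ) + 1) ^ d * R ^ n) :
    Filter.limsup (fun n : ℕ => (u n) ^ ((1 : ℝ) / (n : ℝ))) atTop ≤ R := by
  have h1 : Tendsto (fun n : ℕ => (C * ((n : ℝ) + 1) ^ d) ^ ((1 : ℝ) / (n : ℝ)) * R) atTop
      (𝓝 R) := by
    have h2 := (tendsto_poly_root C hC d).mul_const R
    rwa [one_mul] at h2
  have h3 : (fun n : ℕ => (u n) ^ ((1 : ℝ) / (n : ℝ))) ≤ᶠ[atTop]
      (fun n : ℕ => (C * ((n : ℝ) + 1) ^ d) ^ ((1 : ℝ) / (n : ℝ)) * R) := by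
    filter_upwards [eventually_ge_atTop 1] with n hn
    calc (u n) ^ ((1 : ℝ) / (n : ℝ)) ≤ (C * ((n : ℝ) + 1) ^ d * R ^ n) ^ ((1 : ℝ) / (n : ℝ)) :=
        Real.rpow_le_rpow (hu0 n) (hu n hn) (by positivity)
      _ = (C * ((n : ℝ) + 1) ^ d) ^ ((1 : ℝ) / (n : ℝ)) * R := by
        rw [Real.mul_rpow (by positivity) (by positivity)]
        congr 1
        rw [one_div]
        exact Real.pow_rpow_inv_natCast hR (by omega)
  calc Filter.limsup (fun n : ℕ => (u n) ^ ((1 : ℝ) / (n : ℝ))) atTop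
      ≤ Filter.limsup (fun n : ℕ => (C * ((n : ℝ) + 1) ^ d) ^ ((1 : ℝ) / (n : ℝ)) * R) atTop := by
        exact Filter.limsup_le_limsup h3
          (isCoboundedUnder_le_of_le atTop (x := 0) (fun n : ℕ => Real.rpow_nonneg (hu0 n) _))
          h1.isBoundedUnder_le
    _ = R := h1.limsup_eq

/-- lower bound for the growth rate -/
lemma le_limsup_root {u : ℕ → ℝ} (hu0 : ∀ n, 0 ≤ u n) (C : ℝ) (hC : 0 < C) (d : ℕ) (R : ℝ)
    (hR : 0 ≤ R) (hu : ∀ n : ℕ, 1 ≤ n → R ^ n ≤ C * ((n : ℝ) + 1) ^ d * u n)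
    (M : ℝ) (hM : ∀ n, (u n) ^ ((1 : ℝ) / (n : ℝ)) ≤ M) :
    R ≤ Filter.limsup (fun n : ℕ => (u n) ^ ((1 : ℝ) / (n : ℝ))) atTop := by
  have h0 := (tendsto_poly_root C hC d)
  have h1 : Tendsto (fun n : ℕ => R / ((C * ((n : ℝ) + 1) ^ d) ^ ((1 : ℝ) / (n : ℝ)))) atTop
      (𝓝 R) := by
    have h2 := (tendsto_const_nhds (x := R) (f := (atTop : Filter ℕ))).div h0 one_ne_zero
    rw [div_one] at h2
    exact h2
  have h3 : (fun n : ℕ => R / ((C * ((n : ℝ) + 1) ^ d) ^ ((1 : ℝ) / (n : ℝ)))) ≤ᶠ[atTop]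
      (fun n : ℕ => (u n) ^ ((1 : ℝ) / (n : ℝ))) := by
    filter_upwards [eventually_ge_atTop 1] with n hn
    have hpos : 0 < (C * ((n : ℝ) + 1) ^ d) ^ ((1 : ℝ) / (n : ℝ)) := by positivity
    rw [div_le_iff₀ hpos]
    calc R = (R ^ n) ^ ((1 : ℝ) / (n : ℝ)) := by
          rw [one_div]
          exact (Real.pow_rpow_inv_natCast hR (by omega)).symm
      _ ≤ (C * ((n : ℝ) + 1) ^ d * u n) ^ ((1 : ℝ) / (n : ℝ)) :=
        Real.rpow_le_rpow (by positivity) (hu n hn) (by positivity)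
      _ = _ := by
        rw [Real.mul_rpow (by positivity) (hu0 n)]
        ring
  calc R = Filter.limsup (fun n : ℕ => R / ((C * ((n : ℝ) + 1) ^ d) ^ ((1 : ℝ) / (n : ℝ)))) atTop :=
        h1.limsup_eq.symm
    _ ≤ Filter.limsup (fun n : ℕ => (u n) ^ ((1 : ℝ) / (n : ℝ))) atTop := by
        exact Filter.limsup_le_limsup h3
          (isCoboundedUnder_le_of_le atTop (x := 0) (fun n : ℕ => by positivity))
          ⟨M, by simp only [eventually_map]; exact Eventually.of_forall hM⟩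

end limsup

end Pool.Agent.Lib.MP_2bc940_al
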