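import Mathlib
import Pool.Agent.Lib.MP_2bc940_al.Basics

set_option autoImplicit false

namespace Pool.Agent.Lib.MP_2bc940_al

open Pointwise

section wreath

variable {D Q : Type} [Group D] [Group Q]

/-- the base group of the wreath product -/
def bas : (Q → D) →* RegularWreathProduct D Q where
  toFun f := ⟨f, 1⟩
  map_one' := rfl
  map_mul' f g := by
    ext x
    · simp
    · simp

@[simp] lemma bas_left (f : Q → D) : (bas f : RegularWreathProduct D Q).left = f := rfl
@[simp] lemma bas_right (f : Q → D) : (bas f : RegularWreathProduct D Q).right = 1 := rfl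

lemma left_mul_apply (a b : RegularWreathProduct D Q) (x : Q) :
    (a * b).left x = a.left x * b.left (a.right⁻¹ * x) := rfl

lemma left_inv_apply (a : RegularWreathProduct D Q) (x : Q) :
    (a⁻¹).left x = (a.left (a.right * x))⁻¹ := rfl

lemma right_pow (a : RegularWreathProduct D Q) (n : ℕ) : (a ^ n).right = a.right ^ n :=
  map_pow RegularWreathProduct.rightHom a n

lemma right_zpow (a : RegularWreathProduct D Q) (n : ℤ) : (a ^ n).right = a.right ^ n :=
  map_zpow RegularWreathProduct.rightHom a n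

lemma eq_bas_of_right (a : RegularWreathProduct D Q) (h : a.right = 1) : a = bas a.left := by
  ext x
  · rfl
  · exact h

section conj

/-- the cycle products of `g` -/
noncomputable def cyc (g : RegularWreathProduct D Q) : Q → D := (g ^ (orderOf g.right)).left

lemma pow_order_eq (g : RegularWreathProduct D Q) : g ^ (orderOf g.right) = bas (cyc g) := by
  apply eq_bas_of_right
  rw [right_pow, pow_orderOf_eq_one]

lemma cyc_shift (g : RegularWreathProduct D Q) (j : ℤ) (x : Q) :
    cyc g (g.right ^ j * x) =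
      (g ^ j).left (g.right ^ j * x) * cyc g x * ((g ^ j).left (g.right ^ j * x))⁻¹ := by
  have h1 : g ^ j * bas (cyc g) = bas (cyc g) * g ^ j := by
    rw [← pow_order_eq]
    exact ((Commute.refl g).zpow_left j).pow_right _
  have h2 := congrArg (fun w => w.left (g.right ^ j * x)) h1
  simp only [left_mul_apply, bas_left, bas_right, right_zpow, inv_one, one_mul,
    inv_mul_cancel_left] at h2
  rw [h2, mul_inv_cancel_right]

lemma isConj_cyc_shift (g : RegularWreathProduct D Q) (j : ℤ) (x : Q) :
    IsConj (cyc g x) (cyc g (g.right ^ j * x)) := by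
  rw [isConj_iff]
  exact ⟨(g ^ j).left (g.right ^ j * x), (cyc_shift g j x).symm⟩

lemma zpow_left_eq_one (g : RegularWreathProduct D Q) (x : Q)
    (h : ∀ i : ℤ, g.left (g.right ^ i * x) = 1) (j i : ℤ) :
    (g ^ j).left (g.right ^ i * x) = 1 := by
  let N : Subgroup (RegularWreathProduct D Q) :=
    { carrier := {w | (∃ k : ℤ, w.right = g.right ^ k) ∧
        ∀ i : ℤ, w.left (g.right ^ i * x) = 1}
      mul_mem' := by
        rintro a b ⟨⟨k, hk⟩, ha⟩ ⟨⟨l, hl⟩, hb⟩
        refine ⟨⟨k + l, ?_⟩, ?_⟩
        · rw [RegularWreathProduct.mul_right, hk, hl, zpow_add]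
        · intro i
          rw [left_mul_apply, ha, hk, one_mul, ← mul_assoc, ← zpow_neg, ← zpow_add]
          exact hb _
      one_mem' := ⟨⟨0, by simp⟩, fun i => rfl⟩
      inv_mem' := by
        rintro a ⟨⟨k, hk⟩, ha⟩
        refine ⟨⟨-k, ?_⟩, ?_⟩
        · rw [RegularWreathProduct.inv_right, hk, zpow_neg]
        · intro i
          rw [left_inv_apply, hk, ← mul_assoc, ← zpow_add, ha, inv_one] }
  have hg : g ∈ N := ⟨⟨1, by simp⟩, h⟩
  have := N.zpow_mem hg j
  exact this.2 i

lemma cyc_eq_one (g : RegularWreathProduct D Q) (x : Q)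
    (h : ∀ i : ℤ, g.left (g.right ^ i * x) = 1) : cyc g x = 1 := by
  have := zpow_left_eq_one g x h (orderOf g.right : ℤ) 0
  rw [zpow_zero, one_mul, zpow_natCast] at this
  exact this

/-- two elements over the same element of finite order whose cycle products are conjugate
are conjugate by a base element, supported on the orbits on which they are nontrivial -/
lemma exists_conj (g g' : RegularWreathProduct D Q) (hq : g'.right = g.right)
    (h : ∀ x, IsConj (cyc g x) (cyc g' x)) :
    ∃ f : Q → D, bas f * g * (bas f)⁻¹ = g' ∧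
      ∀ x, (∀ i : ℤ, g.left (g.right ^ i * x) = 1 ∧ g'.left (g.right ^ i * x) = 1) → f x = 1 := by
  classical
  set q := g.right with hqdef
  -- conjugating elements
  have hc : ∀ x, ∃ c : D, c * cyc g x * c⁻¹ = cyc g' x ∧ (cyc g x = cyc g' x → c = 1) := by
    intro x
    by_cases hx : cyc g x = cyc g' x
    · exact ⟨1, by simp [hx], fun _ => rfl⟩
    · obtain ⟨c, hc⟩ := isConj_iff.mp (h x)
      exact ⟨c, hc, fun h' => absurd h' hx⟩
  choose c hc1 hc2 using hc
  -- representatives
  let r : Q → Q := fun x => Quotient.out (Quotient.mk (MulAction.orbitRel (Subgroup.zpowers q) Q) x)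
  have hr1 : ∀ x, ∃ j : ℤ, q ^ j * r x = x := by
    intro x
    have h1 : (MulAction.orbitRel (Subgroup.zpowers q) Q) x (r x) := by
      apply Quotient.exact (s := MulAction.orbitRel (Subgroup.zpowers q) Q)
      exact (Quotient.out_eq _).symm
    rw [MulAction.orbitRel_apply, MulAction.mem_orbit_iff] at h1
    obtain ⟨⟨k, hk⟩, hk2⟩ := h1
    obtain ⟨j, rfl⟩ := Subgroup.mem_zpowers_iff.mp hk
    exact ⟨j, hk2⟩
  have hr2 : ∀ x, r (q⁻¹ * x) = r x := by
    intro x
    show Quotient.out _ = Quotient.out _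
    congr 1
    apply Quotient.sound (s := MulAction.orbitRel (Subgroup.zpowers q) Q)
    show (MulAction.orbitRel (Subgroup.zpowers q) Q) _ _
    rw [MulAction.orbitRel_apply, MulAction.mem_orbit_iff]
    exact ⟨⟨q⁻¹, Subgroup.inv_mem _ (Subgroup.mem_zpowers q)⟩, rfl⟩
  choose j hj using hr1
  let f : Q → D := fun x => (g' ^ (j x)).left x * c (r x) * ((g ^ (j x)).left x)⁻¹
  -- independence of the exponent
  have hind : ∀ (y : Q) (a b : ℤ), q ^ a * y = q ^ b * y →
      (g' ^ a).left (q ^ a * y) * c y * ((g ^ a).left (q ^ a * y))⁻¹ =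
      (g' ^ b).left (q ^ b * y) * c y * ((g ^ b).left (q ^ b * y))⁻¹ := by
    intro y a b hab
    have h1 : q ^ a = q ^ b := mul_right_cancel hab
    have h2 : q ^ (a - b) = 1 := by rw [zpow_sub, h1, mul_inv_cancel]
    rw [← orderOf_dvd_iff_zpow_eq_one] at h2
    obtain ⟨m, hm⟩ := h2
    have ha : a = b + (orderOf q : ℤ) * m := by omega
    have key : ∀ w : RegularWreathProduct D Q, w.right = q →
        (w ^ a).left (q ^ a * y) = (w ^ b).left (q ^ b * y) * (cyc w y) ^ m := by
      intro w hw
      rw [hab, ha, zpow_add, left_mul_apply, right_zpow, hw, inv_mul_cancel_left, zpow_mul,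
        zpow_natCast]
      have : w ^ orderOf q = bas (cyc w) := by rw [← hw]; exact pow_order_eq w
      rw [this, ← map_zpow, bas_left]
      rfl
    rw [key g rfl, key g' hq]
    have h3 : (cyc g' y) ^ m * c y = c y * (cyc g y) ^ m := by
      rw [← hc1 y, conj_zpow]
      group
    calc (g' ^ b).left (q ^ b * y) * cyc g' y ^ m * c y *
          ((g ^ b).left (q ^ b * y) * cyc g y ^ m)⁻¹
        = (g' ^ b).left (q ^ b * y) * (cyc g' y ^ m * c y) *
          ((g ^ b).left (q ^ b * y) * cyc g y ^ m)⁻¹ := by group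
      _ = _ := by rw [h3]; group
  have hf : ∀ x, f x = g'.left x * f (q⁻¹ * x) * (g.left x)⁻¹ := by
    intro x
    have h1 : q ^ (j x) * r x = x := hj x
    have h2 : q ^ (j x - 1) * r x = q⁻¹ * x := by
      calc q ^ (j x - 1) * r x = q⁻¹ * (q ^ (j x) * r x) := by
            rw [← mul_assoc]
            congr 1
            rw [← zpow_neg_one, ← zpow_add]
            congr 1
            ring
        _ = q⁻¹ * x := by rw [h1]
    have h3 : q ^ (j (q⁻¹ * x)) * r x = q⁻¹ * x := by
      have := hj (q⁻¹ * x)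
      rwa [hr2] at this
    have h4 := hind (r x) (j (q⁻¹ * x)) (j x - 1) (h3.trans h2.symm)
    rw [h3, h2] at h4
    have h5 : f (q⁻¹ * x) = (g' ^ (j x - 1)).left (q⁻¹ * x) * c (r x) *
        ((g ^ (j x - 1)).left (q⁻¹ * x))⁻¹ := by
      show (g' ^ (j (q⁻¹ * x))).left (q⁻¹ * x) * c (r (q⁻¹ * x)) *
        ((g ^ (j (q⁻¹ * x))).left (q⁻¹ * x))⁻¹ = _
      rw [hr2, h4]
    rw [h5]
    show (g' ^ (j x)).left x * c (r x) * ((g ^ (j x)).left x)⁻¹ = _
    have h6 : ∀ w : RegularWreathProduct D Q, w.right = q →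
        (w ^ (j x)).left x = w.left x * (w ^ (j x - 1)).left (q⁻¹ * x) := by
      intro w hw
      have : w ^ (j x) = w * w ^ (j x - 1) := by
        rw [← zpow_one_add]
        congr 1
        ring
      rw [this, left_mul_apply, hw]
    rw [h6 g rfl, h6 g' hq]
    group
  refine ⟨f, ?_, ?_⟩
  · rw [mul_inv_eq_iff_eq_mul]
    ext x
    · rw [left_mul_apply, left_mul_apply, bas_left, bas_right, inv_one, one_mul, hf x, hq]
      group
    · simp [hq, hqdef]
  · intro x hx
    have h1 : ∀ i k : ℤ, (g ^ i).left (q ^ k * x) = 1 :=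
      fun i k => zpow_left_eq_one g x (fun i => (hx i).1) i k
    have h2 : ∀ i k : ℤ, (g' ^ i).left (q ^ k * x) = 1 := by
      intro i k
      have := zpow_left_eq_one g' x (fun i => by rw [hq]; exact (hx i).2) i k
      rwa [hq] at this
    have h3 : q ^ (-(j x)) * x = r x := by
      calc q ^ (-(j x)) * x = q ^ (-(j x)) * (q ^ (j x) * r x) := by rw [hj x]
        _ = r x := by
          rw [← mul_assoc, ← zpow_add]
          simp
    have h4 : cyc g (r x) = 1 := by
      rw [← h3]
      have := h1 (orderOf q : ℤ) (-(j x))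
      rwa [zpow_natCast] at this
    have h5 : cyc g' (r x) = 1 := by
      rw [← h3]
      have := h2 (orderOf g'.right : ℤ) (-(j x))
      rwa [zpow_natCast] at this
    have h6 : c (r x) = 1 := hc2 _ (h4.trans h5.symm)
    show (g' ^ (j x)).left x * c (r x) * ((g ^ (j x)).left x)⁻¹ = 1
    have h7 := h1 (j x) 0
    have h8 := h2 (j x) 0
    rw [zpow_zero, one_mul] at h7 h8
    rw [h6, h7, h8]
    simp

end conj

end wreath

end Pool.Agent.Lib.MP_2bc940_al
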