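import Mathlib
import Pool.Agent.Lib.MP_2bc940_al.Wreath

set_option autoImplicit false

namespace Pool.Agent.Lib.MP_2bc940_al

open Pointwise

section gens

variable {D Q : Type} [Group D] [Group Q] [Fintype D] [DecidableEq Q]

/-- a lamp at the base point -/
def lamp (d : D) : RegularWreathProduct D Q := bas (Pi.mulSingle 1 d)

/-- lamp - move - lamp -/
def step (d : D) (s : Q) (d' : D) : RegularWreathProduct D Q :=
  lamp d * RegularWreathProduct.inl s * lamp d'

omit [Fintype D] in
lemma left_mul_step (g : RegularWreathProduct D Q) (d : D) (s : Q) (d' : D) (x : Q) :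
    (g * step d s d').left x =
      g.left x * (if x = g.right then d else 1) * (if x = g.right * s then d' else 1) := by
  unfold step lamp
  rw [← mul_assoc, ← mul_assoc, left_mul_apply, left_mul_apply, left_mul_apply]
  simp only [bas_left, RegularWreathProduct.left_inl, Pi.one_apply, mul_one,
    RegularWreathProduct.mul_right, bas_right, RegularWreathProduct.right_inl, Pi.mulSingle_apply,
    inv_mul_eq_one, mul_inv_rev]
  congr 2
  · simp [eq_comm]
  · rw [mul_assoc, inv_mul_eq_iff_eq_mul, inv_mul_eq_iff_eq_mul, mul_one]

omit [Fintype D] in
lemma right_mul_step (g : RegularWreathProduct D Q) (d : D) (s : Q) (d' : D) :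
    (g * step d s d').right = g.right * s := by
  simp [step, lamp]

open Classical in
/-- the generating set -/
noncomputable def gens (D : Type) [Group D] [Fintype D] (P : Finset Q) :
    Finset (RegularWreathProduct D Q) :=
  ((Finset.univ : Finset D) ×ˢ P ×ˢ (Finset.univ : Finset D)).image
    (fun p => step p.1 p.2.1 p.2.2)

lemma mem_gens (P : Finset Q) (g : RegularWreathProduct D Q) :
    g ∈ gens D P ↔ ∃ d : D, ∃ s ∈ P, ∃ d' : D, step d s d' = g := by
  unfold gens
  simp only [Finset.mem_image, Finset.mem_product, Finset.mem_univ, true_and, and_true,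
    Prod.exists]
  constructor
  · rintro ⟨a, b, c, h, h'⟩; exact ⟨a, b, h, c, h'⟩
  · rintro ⟨a, b, h, c, h'⟩; exact ⟨a, b, c, h, h'⟩

lemma step_mem_gens {P : Finset Q} (d : D) {s : Q} (hs : s ∈ P) (d' : D) :
    step d s d' ∈ gens D P := (mem_gens P _).mpr ⟨d, s, hs, d', rfl⟩

lemma card_gens_le (P : Finset Q) :
    (gens D P).card ≤ Fintype.card D * (P.card * Fintype.card D) := by
  classical
  unfold gens
  refine Finset.card_image_le.trans ?_
  simp [Finset.card_product]

lemma one_mem_gens {P : Finset Q} (h1 : (1 : Q) ∈ P) :
    (1 : RegularWreathProduct D Q) ∈ gens D P := by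
  rw [mem_gens]
  refine ⟨1, 1, h1, 1, ?_⟩
  simp [step, lamp]

omit [Fintype D] in
lemma step_inv (d : D) (s : Q) (d' : D) :
    (step d s d' : RegularWreathProduct D Q)⁻¹ = step d'⁻¹ s⁻¹ d⁻¹ := by
  simp only [step, lamp, mul_inv_rev, mul_assoc, Pi.mulSingle_inv, ← map_inv]

lemma inv_mem_gens {P : Finset Q} (hP : ∀ s ∈ P, s⁻¹ ∈ P) :
    ∀ g ∈ gens D P, g⁻¹ ∈ gens D P := by
  intro g hg
  obtain ⟨d, s, hs, d', rfl⟩ := (mem_gens P g).mp hg
  rw [step_inv]
  exact step_mem_gens _ (hP s hs) _

/-- elements of the powers of the generating set follow a path -/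
lemma path_of_mem_pow [DecidableEq (RegularWreathProduct D Q)] {P : Finset Q} (n : ℕ) (g : RegularWreathProduct D Q)
    (hg : g ∈ (gens D P) ^ n) :
    ∃ l : List Q, l.length = n ∧ (∀ s ∈ l, s ∈ P) ∧ l.prod = g.right ∧
      ∀ x, g.left x ≠ 1 → ∃ i ≤ n, x = (l.take i).prod := by
  induction n generalizing g with
  | zero =>
    rw [pow_zero, Finset.mem_one] at hg
    subst hg
    exact ⟨[], rfl, by simp, rfl, fun x hx => absurd rfl hx⟩
  | succ n ih =>
    rw [pow_succ, Finset.mem_mul] at hg
    obtain ⟨g', hg', a, ha, rfl⟩ := hg
    obtain ⟨d, s, hs, d', rfl⟩ := (mem_gens P a).mp ha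
    obtain ⟨l, h1, h2, h3, h4⟩ := ih g' hg'
    refine ⟨l ++ [s], by simp [h1], ?_, ?_, ?_⟩
    · intro x hx
      rcases List.mem_append.mp hx with hx | hx
      · exact h2 x hx
      · rw [List.mem_singleton] at hx
        rw [hx]; exact hs
    · rw [right_mul_step, List.prod_append, h3]
      simp
    · intro x hx
      rw [left_mul_step] at hx
      by_cases hx1 : x = g'.right * s
      · refine ⟨n + 1, le_rfl, ?_⟩
        rw [List.take_of_length_le (by simp [h1]), List.prod_append, h3, hx1]
        simp
      · by_cases hx2 : x = g'.right
        · refine ⟨n, by omega, ?_⟩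
          rw [List.take_append_of_le_length (by omega), List.take_of_length_le (by omega), h3, hx2]
        · rw [if_neg hx1, if_neg hx2, mul_one, mul_one] at hx
          obtain ⟨i, hi, hi2⟩ := h4 x hx
          refine ⟨i, by omega, ?_⟩
          rw [List.take_append_of_le_length (by omega)]
          exact hi2

/-- every lamp configuration along a path is reached -/
lemma mem_pow_of_path [DecidableEq (RegularWreathProduct D Q)] {P : Finset Q} (l : List Q) (hl : ∀ s ∈ l, s ∈ P) (f : Q → D)
    (hf : ∀ x, f x ≠ 1 → ∃ i ≤ l.length, x = (l.take i).prod)
    (hne : 1 ≤ l.length) :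
    (⟨f, l.prod⟩ : RegularWreathProduct D Q) ∈ (gens D P) ^ l.length := by
  induction l using List.reverseRecOn generalizing f with
  | nil => simp at hne
  | append_singleton l s ih =>
    rw [List.length_append, List.length_singleton, pow_succ, Finset.mem_mul]
    by_cases hl0 : l.length = 0
    · have hl1 : l = [] := List.length_eq_zero_iff.mp hl0
      subst hl1
      refine ⟨1, by simp, step (if 1 = s then 1 else f 1) s (f s), 
        step_mem_gens _ (hl s (by simp)) _, ?_⟩
      ext x
      · rw [left_mul_step]
        simp only [RegularWreathProduct.one_left, RegularWreathProduct.one_right, Pi.one_apply,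
          one_mul]
        by_cases hxs : x = s
        · by_cases h1s : (1 : Q) = s
          · subst hxs
            simp [← h1s]
          · subst hxs
            have : x ≠ 1 := fun h => h1s h.symm
            simp [this]
        · by_cases hx1 : x = 1
          · subst hx1
            simp [hxs]
          · simp only [hx1, hxs, if_false, mul_one]
            by_contra hne1
            obtain ⟨i, hi, hi2⟩ := hf x (fun h => hne1 h.symm)
            simp only [List.nil_append, List.length_singleton] at hi hi2
            interval_cases i
            · exact hx1 (by simpa using hi2)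
            · exact hxs (by simpa using hi2)
      · rw [right_mul_step]
        simp
    · have hpos : 1 ≤ l.length := by omega
      have h1 := ih (fun x hx => hl x (by simp [hx]))
        (fun x => if x = (l ++ [s]).prod then 1 else f x) (by
          intro x hx
          by_cases hx1 : x = (l ++ [s]).prod
          · simp [hx1] at hx
          · simp only [hx1, if_false] at hx
            obtain ⟨i, hi, hi2⟩ := hf x hx
            have hi3 : i ≤ l.length := by
              by_contra hlt
              have : i = l.length + 1 := by
                simp only [List.length_append, List.length_singleton] at hi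
                omega
              rw [this, List.take_of_length_le (by simp)] at hi2
              exact hx1 hi2
            refine ⟨i, hi3, ?_⟩
            rw [List.take_append_of_le_length hi3] at hi2
            exact hi2) hpos
      refine ⟨_, h1, step 1 s (f (l ++ [s]).prod), step_mem_gens _ (hl s (by simp)) _, ?_⟩
      ext x
      · rw [left_mul_step]
        by_cases hx1 : x = (l ++ [s]).prod
        · have hx2 : x = l.prod * s := by rw [hx1]; simp
          simp only [hx2, if_true]
          simp
        · have hx2 : x ≠ l.prod * s := by
            intro h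
            exact hx1 (by rw [h]; simp)
          simp only [hx1, hx2, if_false, ite_self, mul_one]
      · rw [right_mul_step]
        simp

end gens

end Pool.Agent.Lib.MP_2bc940_al
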