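import Mathlib
import Pool.Agent.Lib.MP_2bc940_al.Gens

set_option autoImplicit false

namespace Pool.Agent.Lib.MP_2bc940_al

open Pointwise

section sub

variable {G : Type} [Group G] (S : Finset G)

open Classical in
/-- a finite generating set, inside the subgroup it generates -/
noncomputable def subS : Finset (Subgroup.closure (S : Set G)) :=
  S.attach.image (fun x => ⟨x.1, Subgroup.subset_closure x.2⟩)

lemma mem_subS (x : Subgroup.closure (S : Set G)) : x ∈ subS S ↔ x.1 ∈ S := by
  classical
  unfold subS
  rw [Finset.mem_image]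
  constructor
  · rintro ⟨y, _, rfl⟩
    exact y.2
  · intro hx
    exact ⟨⟨x.1, hx⟩, Finset.mem_attach _ _, rfl⟩

lemma closure_subS : Subgroup.closure (subS S : Set (Subgroup.closure (S : Set G))) = ⊤ := by
  have h : (subS S : Set (Subgroup.closure (S : Set G))) =
      (Subtype.val : Subgroup.closure (S : Set G) → G) ⁻¹' (S : Set G) := by
    ext x
    rw [Finset.mem_coe, mem_subS]
    rfl
  rw [h]
  exact Subgroup.closure_closure_coe_preimage

lemma pow_subset_closure [DecidableEq G] (n : ℕ) : ∀ g ∈ S ^ n, g ∈ Subgroup.closure (S : Set G) := by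
  induction n with
  | zero =>
    intro g hg
    rw [pow_zero, Finset.mem_one] at hg
    subst hg
    exact Subgroup.one_mem _
  | succ n ih =>
    intro g hg
    rw [pow_succ, Finset.mem_mul] at hg
    obtain ⟨a, ha, b, hb, rfl⟩ := hg
    exact Subgroup.mul_mem _ (ih a ha) (Subgroup.subset_closure hb)

lemma mem_subS_pow [DecidableEq G] [DecidableEq (Subgroup.closure (S : Set G))] (n : ℕ) (x : Subgroup.closure (S : Set G)) :
    x ∈ (subS S) ^ n ↔ x.1 ∈ S ^ n := by
  induction n generalizing x with
  | zero =>
    rw [pow_zero, pow_zero, Finset.mem_one, Finset.mem_one]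
    exact ⟨fun h => by rw [h]; rfl, fun h => Subtype.ext h⟩
  | succ n ih =>
    rw [pow_succ, pow_succ, Finset.mem_mul, Finset.mem_mul]
    constructor
    · rintro ⟨a, ha, b, hb, rfl⟩
      exact ⟨a.1, (ih a).mp ha, b.1, (mem_subS S b).mp hb, rfl⟩
    · rintro ⟨a, ha, b, hb, hab⟩
      refine ⟨⟨a, pow_subset_closure S n a ha⟩, (ih _).mpr ha,
        ⟨b, Subgroup.subset_closure hb⟩, (mem_subS S _).mpr hb, ?_⟩
      exact Subtype.ext hab

lemma card_subS_pow [DecidableEq G] [DecidableEq (Subgroup.closure (S : Set G))] (n : ℕ) : ((subS S) ^ n).card = (S ^ n).card := by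
  apply le_antisymm
  · apply Finset.card_le_card_of_injOn Subtype.val
    · intro x hx
      exact (mem_subS_pow S n x).mp hx
    · intro x _ y _ h
      exact Subtype.ext h
  · have : S ^ n ⊆ ((subS S) ^ n).image Subtype.val := by
      intro g hg
      rw [Finset.mem_image]
      exact ⟨⟨g, pow_subset_closure S n g hg⟩, (mem_subS_pow S n _).mpr hg, rfl⟩
    exact (Finset.card_le_card this).trans Finset.card_image_le

end sub

section mem

variable {D Q : Type} [Group D] [Group Q] [Fintype D] [DecidableEq Q]

lemma inl_mem_closure {P : Finset Q} (hcl : Subgroup.closure (P : Set Q) = ⊤) (q : Q) :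
    (RegularWreathProduct.inl q : RegularWreathProduct D Q) ∈
      Subgroup.closure (gens D P : Set (RegularWreathProduct D Q)) := by
  have h : Subgroup.closure (P : Set Q) ≤
      (Subgroup.closure (gens D P : Set (RegularWreathProduct D Q))).comap
        (RegularWreathProduct.inl : Q →* RegularWreathProduct D Q) := by
    rw [Subgroup.closure_le]
    intro s hs
    apply Subgroup.subset_closure
    have h2 : step (1 : D) s (1 : D) = RegularWreathProduct.inl s := by
      simp [step, lamp]
    rw [← h2]
    exact step_mem_gens 1 hs 1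
  rw [hcl] at h
  exact h (Subgroup.mem_top q)

lemma lamp_mem_closure {P : Finset Q} (h1 : (1 : Q) ∈ P) (d : D) :
    (lamp d : RegularWreathProduct D Q) ∈
      Subgroup.closure (gens D P : Set (RegularWreathProduct D Q)) := by
  apply Subgroup.subset_closure
  have h2 : step d (1 : Q) (1 : D) = lamp d := by
    simp [step, lamp]
  rw [← h2]
  exact step_mem_gens d h1 1

lemma single_mem_closure {P : Finset Q} (h1 : (1 : Q) ∈ P)
    (hcl : Subgroup.closure (P : Set Q) = ⊤) (x : Q) (d : D) :
    (bas (Pi.mulSingle x d) : RegularWreathProduct D Q) ∈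
      Subgroup.closure (gens D P : Set (RegularWreathProduct D Q)) := by
  have h : (bas (Pi.mulSingle x d) : RegularWreathProduct D Q) =
      RegularWreathProduct.inl x * lamp d * (RegularWreathProduct.inl x)⁻¹ := by
    ext y
    · simp only [lamp, bas_left, left_mul_apply, RegularWreathProduct.left_inl,
        RegularWreathProduct.right_inl, Pi.one_apply, one_mul, RegularWreathProduct.mul_right,
        bas_right, mul_one, left_inv_apply, inv_one]
      simp only [Pi.mulSingle_apply, inv_mul_eq_one]
      simp only [eq_comm]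
    · simp [lamp]
  rw [h]
  exact Subgroup.mul_mem _ (Subgroup.mul_mem _ (inl_mem_closure hcl x) (lamp_mem_closure h1 d))
    (Subgroup.inv_mem _ (inl_mem_closure hcl x))

lemma bas_mem_closure {P : Finset Q} (h1 : (1 : Q) ∈ P)
    (hcl : Subgroup.closure (P : Set Q) = ⊤) (f : Q → D) (hf : {x | f x ≠ 1}.Finite) :
    (bas f : RegularWreathProduct D Q) ∈
      Subgroup.closure (gens D P : Set (RegularWreathProduct D Q)) := by
  classical
  have key : ∀ s : Finset Q, (bas (fun x => if x ∈ s then f x else 1) :
      RegularWreathProduct D Q) ∈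
      Subgroup.closure (gens D P : Set (RegularWreathProduct D Q)) := by
    intro s
    induction s using Finset.induction_on with
    | empty =>
      have : (bas (fun x => if x ∈ (∅ : Finset Q) then f x else 1) :
          RegularWreathProduct D Q) = 1 := by
        rw [← map_one bas]
        congr 1
      rw [this]
      exact Subgroup.one_mem _
    | insert a s ha ih =>
      have : (fun x => if x ∈ insert a s then f x else 1) =
          Pi.mulSingle a (f a) * (fun x => if x ∈ s then f x else 1) := by
        funext x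
        by_cases hx : x = a
        · subst hx
          simp [ha]
        · simp [hx]
      rw [this, map_mul]
      exact Subgroup.mul_mem _ (single_mem_closure h1 hcl a (f a)) ih
  have h2 := key hf.toFinset
  have h3 : (fun x => if x ∈ hf.toFinset then f x else 1) = f := by
    funext x
    by_cases hx : f x = 1
    · simp [hx]
    · simp [hx]
  rwa [h3] at h2

end mem

section bound

variable {D Q : Type} [Group D] [Group Q] [Fintype D] [DecidableEq Q]

/-- a path together with classes of cycle products describes an element -/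
def Describes {P : Finset Q} {n : ℕ} (d : (Fin n → P) × (Fin (n + 1) → ConjClasses D))
    (g : RegularWreathProduct D Q) : Prop :=
  (List.ofFn (fun i => (d.1 i : Q))).prod = g.right ∧
  (∀ x, g.left x ≠ 1 → ∃ i : Fin (n + 1), x = ((List.ofFn (fun i => (d.1 i : Q))).take i).prod) ∧
  ∀ i : Fin (n + 1),
    ConjClasses.mk (cyc g ((List.ofFn (fun i => (d.1 i : Q))).take i).prod) = d.2 i

lemma exists_describes [DecidableEq (RegularWreathProduct D Q)] {P : Finset Q} (n : ℕ) (g : RegularWreathProduct D Q)
    (hg : g ∈ (gens D P) ^ n) :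
    ∃ d : (Fin n → P) × (Fin (n + 1) → ConjClasses D), Describes d g := by
  obtain ⟨l, h1, h2, h3, h4⟩ := path_of_mem_pow n g hg
  subst h1
  let s : Fin l.length → P := fun i => ⟨l.get i, h2 _ (List.get_mem l i)⟩
  have hl : List.ofFn (fun i => (s i : Q)) = l := List.ofFn_get l
  refine ⟨(s, fun i => ConjClasses.mk (cyc g (l.take i).prod)), ?_, ?_, ?_⟩
  · show (List.ofFn (fun i => (s i : Q))).prod = g.right
    rw [hl, h3]
  · intro x hx
    obtain ⟨i, hi, hi2⟩ := h4 x hx
    refine ⟨⟨i, by omega⟩, ?_⟩
    show x = ((List.ofFn (fun i => (s i : Q))).take i).prod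
    rw [hl]
    exact hi2
  · intro i
    show ConjClasses.mk (cyc g ((List.ofFn (fun i => (s i : Q))).take i).prod) = _
    rw [hl]

lemma conj_of_describes {P : Finset Q} (h1 : (1 : Q) ∈ P)
    (hcl : Subgroup.closure (P : Set Q) = ⊤) (htor : ∀ q : Q, IsOfFinOrder q) {n : ℕ}
    (d : (Fin n → P) × (Fin (n + 1) → ConjClasses D)) (g g' : RegularWreathProduct D Q)
    (hg : Describes d g) (hg' : Describes d g') :
    ∃ w ∈ Subgroup.closure (gens D P : Set (RegularWreathProduct D Q)), w * g * w⁻¹ = g' := by
  obtain ⟨a1, a2, a3⟩ := hg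
  obtain ⟨b1, b2, b3⟩ := hg'
  set l := List.ofFn (fun i => (d.1 i : Q)) with hl
  have hq : g'.right = g.right := by rw [← a1, ← b1]
  have hcyc : ∀ i : Fin (n + 1), IsConj (cyc g (l.take i).prod) (cyc g' (l.take i).prod) := by
    intro i
    rw [← ConjClasses.mk_eq_mk_iff_isConj, a3, b3]
  have htriv : ∀ x, (¬ ∃ (i : Fin (n + 1)) (j : ℤ), x = g.right ^ j * (l.take i).prod) →
      ∀ k : ℤ, g.left (g.right ^ k * x) = 1 ∧ g'.left (g.right ^ k * x) = 1 := by
    intro x hx k
    constructor
    · by_contra hne
      obtain ⟨i, hi⟩ := a2 _ hne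
      apply hx
      refine ⟨i, -k, ?_⟩
      rw [← hi, ← mul_assoc, ← zpow_add]
      simp
    · by_contra hne
      obtain ⟨i, hi⟩ := b2 _ hne
      apply hx
      refine ⟨i, -k, ?_⟩
      rw [← hi, ← mul_assoc, ← zpow_add]
      simp
  have hall : ∀ x, IsConj (cyc g x) (cyc g' x) := by
    intro x
    by_cases hx : ∃ (i : Fin (n + 1)) (j : ℤ), x = g.right ^ j * (l.take i).prod
    · obtain ⟨i, j, rfl⟩ := hx
      have e1 := isConj_cyc_shift g j (l.take i).prod
      have e2 := isConj_cyc_shift g' j (l.take i).prod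
      rw [hq] at e2
      exact (e1.symm.trans (hcyc i)).trans e2
    · have h2 := htriv x hx
      rw [cyc_eq_one g x (fun i => (h2 i).1), cyc_eq_one g' x (fun i => by
        rw [hq]; exact (h2 i).2)]
  obtain ⟨f, hf1, hf2⟩ := exists_conj g g' hq hall
  refine ⟨bas f, ?_, hf1⟩
  apply bas_mem_closure h1 hcl
  have hfin : (Set.image2 (fun (a b : Q) => a * b) (Subgroup.zpowers g.right : Set Q)
      (Set.range (fun i : Fin (n + 1) => (l.take i).prod))).Finite :=
    Set.Finite.image2 _ (finite_zpowers.mpr (htor g.right)) (Set.finite_range _)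
  apply hfin.subset
  intro x hx
  by_contra hne
  apply hx
  apply hf2
  apply htriv
  rintro ⟨i, j, rfl⟩
  exact hne ⟨g.right ^ j, ⟨j, rfl⟩, (l.take i).prod, ⟨i, rfl⟩, rfl⟩

theorem class_bound {P : Finset Q} [Fintype (ConjClasses D)]
    [DecidableEq (Subgroup.closure (gens D P : Set (RegularWreathProduct D Q)))] (h1 : (1 : Q) ∈ P)
    (hcl : Subgroup.closure (P : Set Q) = ⊤) (htor : ∀ q : Q, IsOfFinOrder q) (n : ℕ) :
    (ConjClasses.mk '' (((subS (gens D P)) ^ n :
      Finset (Subgroup.closure (gens D P : Set (RegularWreathProduct D Q)))) :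
      Set (Subgroup.closure (gens D P : Set (RegularWreathProduct D Q))))).ncard ≤
      P.card ^ n * (Fintype.card (ConjClasses D)) ^ (n + 1) := by
  classical
  let Data := (Fin n → P) × (Fin (n + 1) → ConjClasses D)
  let E : Data → ConjClasses (Subgroup.closure (gens D P : Set (RegularWreathProduct D Q))) :=
    fun d => if h : ∃ g : Subgroup.closure (gens D P : Set (RegularWreathProduct D Q)),
      Describes d g.1 then ConjClasses.mk (Classical.choose h) else ConjClasses.mk 1
  have hsub : (ConjClasses.mk '' (((subS (gens D P)) ^ n :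
      Finset (Subgroup.closure (gens D P : Set (RegularWreathProduct D Q)))) :
      Set (Subgroup.closure (gens D P : Set (RegularWreathProduct D Q))))) ⊆
      E '' Set.univ := by
    rintro _ ⟨g, hg, rfl⟩
    obtain ⟨d, hd⟩ := exists_describes n g.1 ((mem_subS_pow _ n g).mp hg)
    refine ⟨d, Set.mem_univ _, ?_⟩
    have hex : ∃ g : Subgroup.closure (gens D P : Set (RegularWreathProduct D Q)),
      Describes d g.1 := ⟨g, hd⟩
    show (if h : ∃ g : Subgroup.closure (gens D P : Set (RegularWreathProduct D Q)),
      Describes d g.1 then ConjClasses.mk (Classical.choose h) else ConjClasses.mk 1) = _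
    rw [dif_pos hex, ConjClasses.mk_eq_mk_iff_isConj, isConj_iff]
    obtain ⟨w, hw, hw2⟩ := conj_of_describes h1 hcl htor d _ _ (Classical.choose_spec hex) hd
    exact ⟨⟨w, hw⟩, Subtype.ext hw2⟩
  calc _ ≤ (E '' Set.univ).ncard := Set.ncard_le_ncard hsub (Set.finite_univ.image _)
    _ ≤ (Set.univ : Set Data).ncard := Set.ncard_image_le Set.finite_univ
    _ = Fintype.card Data := by rw [Set.ncard_univ, Nat.card_eq_fintype_card]
    _ = _ := by
      simp [Data]

end bound

section lower

variable {D Q : Type} [Group D] [Group Q] [Fintype D] [DecidableEq Q]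

lemma pow_ne_pow_succ [Infinite Q] {P : Finset Q} (h1 : (1 : Q) ∈ P) (hinv : ∀ s ∈ P, s⁻¹ ∈ P)
    (hcl : Subgroup.closure (P : Set Q) = ⊤) (n : ℕ) : P ^ n ≠ P ^ (n + 1) := by
  intro h
  have h2 : ∀ m, P ^ (n + m) = P ^ n := by
    intro m
    induction m with
    | zero => rfl
    | succ m ih => rw [← add_assoc, pow_succ, ih, ← pow_succ, ← h]
  have h3 : ∀ q : Q, q ∈ P ^ n := by
    intro q
    have hq : q ∈ Subgroup.closure (P : Set Q) := by rw [hcl]; trivial
    have hex : ∃ m, q ∈ P ^ m := by
      induction hq using Subgroup.closure_induction with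
      | mem x hx => exact ⟨1, by rw [pow_one]; exact hx⟩
      | one => exact ⟨0, by simp⟩
      | mul x y _ _ hx hy =>
        obtain ⟨a, ha⟩ := hx
        obtain ⟨b, hb⟩ := hy
        exact ⟨a + b, by rw [pow_add]; exact Finset.mul_mem_mul ha hb⟩
      | inv x _ hx =>
        obtain ⟨a, ha⟩ := hx
        refine ⟨a, ?_⟩
        obtain ⟨l, hl1, hl2, rfl⟩ := (mem_pow_iff_list P a x).mp ha
        rw [List.prod_inv_reverse]
        apply list_prod_mem_pow P h1
        · intro y hy
          simp only [List.mem_reverse, List.mem_map] at hy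
          obtain ⟨z, hz, rfl⟩ := hy
          exact hinv z (hl2 z hz)
        · simp [hl1]
    obtain ⟨m, hm⟩ := hex
    have h4 : q ∈ P ^ (n + m) := Finset.pow_subset_pow_right h1 (by omega) hm
    rw [h2] at h4
    exact h4
  have h5 : (Set.univ : Set Q).Finite := (Finset.finite_toSet (P ^ n)).subset (fun q _ => h3 q)
  exact Set.infinite_univ h5

lemma exists_geodesic [Infinite Q] {P : Finset Q} (h1 : (1 : Q) ∈ P) (hinv : ∀ s ∈ P, s⁻¹ ∈ P)
    (hcl : Subgroup.closure (P : Set Q) = ⊤) (n : ℕ) :
    ∃ l : List Q, l.length = n ∧ (∀ s ∈ l, s ∈ P) ∧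
      Set.InjOn (fun i => (l.take i).prod) (Set.Iic n) := by
  rcases Nat.eq_zero_or_pos n with rfl | hn
  · refine ⟨[], rfl, by simp, ?_⟩
    intro a ha b hb _
    simp only [Set.mem_Iic, Nat.le_zero] at ha hb
    rw [ha, hb]
  · obtain ⟨m, rfl⟩ : ∃ m, n = m + 1 := ⟨n - 1, by omega⟩
    have hsub : P ^ m ⊆ P ^ (m + 1) := Finset.pow_subset_pow_right h1 (by omega)
    obtain ⟨q, hq1, hq2⟩ : ∃ q ∈ P ^ (m + 1), q ∉ P ^ m := by
      by_contra hcon
      push Not at hcon
      exact pow_ne_pow_succ h1 hinv hcl m (Finset.Subset.antisymm hsub hcon)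
    obtain ⟨l, hl1, hl2, hl3⟩ := (mem_pow_iff_list P (m + 1) q).mp hq1
    refine ⟨l, hl1, hl2, ?_⟩
    have key : ∀ i j, i < j → j ≤ m + 1 → (l.take i).prod ≠ (l.take j).prod := by
      intro i j hij hj heq
      apply hq2
      rw [← hl3, ← List.take_append_drop j l, List.prod_append, ← heq, ← List.prod_append]
      apply list_prod_mem_pow P h1
      · intro x hx
        rcases List.mem_append.mp hx with hx | hx
        · exact hl2 x (List.mem_of_mem_take hx)
        · exact hl2 x (List.mem_of_mem_drop hx)
      · simp only [List.length_append, List.length_take, List.length_drop]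
        omega
    intro a ha b hb hab
    simp only [Set.mem_Iic] at ha hb
    rcases lt_trichotomy a b with h | h | h
    · exact absurd hab (key a b h hb)
    · exact h
    · exact absurd hab.symm (key b a h ha)

theorem growth_lower [DecidableEq (RegularWreathProduct D Q)] [Infinite Q] {P : Finset Q} (h1 : (1 : Q) ∈ P) (hinv : ∀ s ∈ P, s⁻¹ ∈ P)
    (hcl : Subgroup.closure (P : Set Q) = ⊤) (n : ℕ) :
    (Fintype.card D) ^ n ≤ ((gens D P) ^ n).card := by
  rcases Nat.eq_zero_or_pos n with rfl | hn
  · simp
  obtain ⟨l, hl1, hl2, hl3⟩ := exists_geodesic h1 hinv hcl n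
  -- the visited sites
  let X : Finset Q := (Finset.range (n + 1)).image (fun i => (l.take i).prod)
  have hX : X.card = n + 1 := by
    rw [Finset.card_image_of_injOn, Finset.card_range]
    intro a ha b hb hab
    apply hl3 _ _ hab
    · simpa [Nat.lt_succ_iff] using ha
    · simpa [Nat.lt_succ_iff] using hb
  let F : (X → D) → RegularWreathProduct D Q :=
    fun φ => ⟨fun x => if h : x ∈ X then φ ⟨x, h⟩ else 1, l.prod⟩
  have hF : ∀ φ, F φ ∈ (gens D P) ^ n := by
    intro φ
    have := mem_pow_of_path l hl2 (fun x => if h : x ∈ X then φ ⟨x, h⟩ else 1) (by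
      intro x hx
      by_cases hxX : x ∈ X
      · obtain ⟨i, hi, hi2⟩ := Finset.mem_image.mp hxX
        exact ⟨i, by rw [hl1]; simpa [Nat.lt_succ_iff] using hi, hi2.symm⟩
      · simp [hxX] at hx) (by omega)
    rw [hl1] at this
    exact this
  have hinj : Function.Injective F := by
    intro φ ψ h
    funext x
    have h2 := congrArg (fun w => w.left x.1) h
    simp only [F, x.2, dif_pos] at h2
    exact h2
  have h3 : Fintype.card (X → D) ≤ ((gens D P) ^ n).card := by
    rw [← Finset.card_univ]
    apply Finset.card_le_card_of_injOn F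
    · intro φ _
      exact hF φ
    · exact hinj.injOn
  rw [Fintype.card_fun, Fintype.card_coe, hX] at h3
  refine le_trans ?_ h3
  exact Nat.pow_le_pow_right Fintype.card_pos (by omega)

end lower

end Pool.Agent.Lib.MP_2bc940_al
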