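import Mathlib

set_option autoImplicit false

/-!
The Gupta-Sidki 3-group as a group of permutations of the set of finite words over `ZMod 3`:
it is infinite, generated by two elements, and every element has finite order.
-/

namespace Pool.Agent.Lib.MP_2bc940_al

/-- permutations of finite ternary words -/
abbrev TW : Type := Equiv.Perm (List (ZMod 3))

/-- the word map underlying `Phi` -/
def phiFun (u : ZMod 3 → TW) (k : ZMod 3) : List (ZMod 3) → List (ZMod 3)
  | [] => []
  | x :: w => (x + k) :: u x w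

/-- the inverse word map underlying `Phi` -/
def phiInv (u : ZMod 3 → TW) (k : ZMod 3) : List (ZMod 3) → List (ZMod 3)
  | [] => []
  | y :: w => (y - k) :: (u (y - k)).symm w

/-- the permutation acting by adding `k` to the first letter `x` and by `u x` on the rest -/
def Phi (u : ZMod 3 → TW) (k : ZMod 3) : TW where
  toFun := phiFun u k
  invFun := phiInv u k
  left_inv := by
    intro w
    cases w with
    | nil => rfl
    | cons x w => simp [phiFun, phiInv]
  right_inv := by
    intro w
    cases w with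
    | nil => rfl
    | cons x w => simp [phiFun, phiInv]

@[simp] lemma Phi_nil (u : ZMod 3 → TW) (k : ZMod 3) : Phi u k [] = [] := rfl

@[simp] lemma Phi_cons (u : ZMod 3 → TW) (k x : ZMod 3) (w : List (ZMod 3)) :
    Phi u k (x :: w) = (x + k) :: u x w := rfl

lemma Phi_mul (u v : ZMod 3 → TW) (k l : ZMod 3) :
    Phi u k * Phi v l = Phi (fun x => u (x + l) * v x) (k + l) := by
  apply Equiv.ext
  intro w
  cases w with
  | nil => rfl
  | cons x w =>
    simp only [Equiv.Perm.mul_apply, Phi_cons, List.cons.injEq, and_true]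
    ring

lemma Phi_one : Phi (fun _ => 1) 0 = 1 := by
  apply Equiv.ext
  intro w
  cases w with
  | nil => rfl
  | cons x w => simp

lemma Phi_inj {u v : ZMod 3 → TW} {k l : ZMod 3} (h : Phi u k = Phi v l) : u = v ∧ k = l := by
  constructor
  · funext x
    apply Equiv.ext
    intro w
    have := congrArg (fun g : TW => g (x :: w)) h
    simp only [Phi_cons, List.cons.injEq] at this
    exact this.2
  · have := congrArg (fun g : TW => g (0 :: [])) h
    simp only [Phi_cons, List.cons.injEq, zero_add] at this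
    exact this.1

/-- the rooted permutation -/
def A (k : ZMod 3) : TW := Phi (fun _ => 1) k

lemma A_mul (k l : ZMod 3) : A k * A l = A (k + l) := by
  simp [A, Phi_mul]

lemma A_zero : A 0 = 1 := Phi_one

lemma A_inv (k : ZMod 3) : (A k)⁻¹ = A (-k) := by
  rw [inv_eq_iff_mul_eq_one, A_mul]
  simp [A_zero]

/-- the word map of the directed generator -/
def tFun : List (ZMod 3) → List (ZMod 3)
  | [] => []
  | x :: w => if x = 0 then x :: A 1 w else if x = 1 then x :: A (-1) w else x :: tFun w

/-- the word map of the inverse of the directed generator -/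
def tInv : List (ZMod 3) → List (ZMod 3)
  | [] => []
  | x :: w => if x = 0 then x :: A (-1) w else if x = 1 then x :: A 1 w else x :: tInv w

lemma A_A_neg (k : ZMod 3) (w : List (ZMod 3)) : A k (A (-k) w) = w := by
  rw [← Equiv.Perm.mul_apply, A_mul]
  simp [A_zero]

lemma A_neg_A (k : ZMod 3) (w : List (ZMod 3)) : A (-k) (A k w) = w := by
  rw [← Equiv.Perm.mul_apply, A_mul]
  simp [A_zero]

/-- the directed generator -/
def t : TW where
  toFun := tFun
  invFun := tInv
  left_inv := by
    intro w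
    induction w with
    | nil => rfl
    | cons x w ih =>
      by_cases h0 : x = 0
      · simp [tFun, tInv, h0, A_neg_A]
      · by_cases h1 : x = 1
        · simp [tFun, tInv, h1, A_A_neg]
        · simp [tFun, tInv, h0, h1, ih]
  right_inv := by
    intro w
    induction w with
    | nil => rfl
    | cons x w ih =>
      by_cases h0 : x = 0
      · simp [tFun, tInv, h0, A_A_neg]
      · by_cases h1 : x = 1
        · simp [tFun, tInv, h1, A_neg_A]
        · simp [tFun, tInv, h0, h1, ih]

/-- the sections of `t ^ e` -/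
def c (e : ℤ) (x : ZMod 3) : TW :=
  if x = 0 then A e else if x = 1 then A (-e) else t ^ e

lemma t_eq : t = Phi (c 1) 0 := by
  apply Equiv.ext
  intro w
  cases w with
  | nil => rfl
  | cons x w =>
    show tFun (x :: w) = _
    by_cases h0 : x = 0
    · simp [tFun, c, h0]
    · by_cases h1 : x = 1
      · simp [tFun, c, h1]
      · simp only [tFun, c, h0, h1, if_false, Phi_cons, add_zero, zpow_one]
        rfl

lemma c_mul (e f : ℤ) (x : ZMod 3) : c e x * c f x = c (e + f) x := by
  unfold c
  split_ifs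
  · rw [A_mul]; push_cast; rfl
  · rw [A_mul]; push_cast; congr 1; ring
  · rw [zpow_add]

lemma c_zero (x : ZMod 3) : c 0 x = 1 := by
  unfold c
  split_ifs <;> simp [A_zero]

lemma tpow_eq (e : ℤ) : t ^ e = Phi (c e) 0 := by
  have h1 : ∀ e : ℤ, Phi (c e) 0 * t = Phi (c (e + 1)) 0 := by
    intro e
    nth_rewrite 1 [t_eq]
    rw [Phi_mul]
    simp [c_mul]
  induction e using Int.induction_on with
  | zero =>
    rw [zpow_zero, ← Phi_one]
    congr 1
    funext x
    exact (c_zero x).symm
  | succ i ih => rw [zpow_add_one, ih, h1]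
  | pred i ih =>
    rw [zpow_sub_one, ih]
    rw [mul_inv_eq_iff_eq_mul, h1]
    simp

lemma c_pow (e : ℤ) (x : ZMod 3) (n : ℕ) : (c e x) ^ n = c (n * e) x := by
  induction n with
  | zero => simp [c_zero]
  | succ n ih => rw [pow_succ, ih, c_mul]; congr 1; push_cast; ring

lemma Phi_pow (u : ZMod 3 → TW) (n : ℕ) : (Phi u 0) ^ n = Phi (fun x => (u x) ^ n) 0 := by
  induction n with
  | zero => simp [Phi_one]
  | succ n ih => rw [pow_succ, ih, Phi_mul]; simp [pow_succ]

lemma t_cube : t ^ (3 : ℕ) = 1 := by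
  have h3 : (3 : ZMod 3) = 0 := by decide
  apply Equiv.ext
  intro w
  induction w with
  | nil =>
    rw [t_eq, Phi_pow]
    rfl
  | cons x w ih =>
    rw [t_eq, Phi_pow]
    simp only [Phi_cons, add_zero, Equiv.Perm.coe_one, id_eq, List.cons.injEq, true_and]
    rw [c_pow]
    unfold c
    split_ifs
    · simp [h3, A_zero]
    · simp [h3, A_zero]
    · have : (((3 : ℕ) : ℤ) * 1) = ((3 : ℕ) : ℤ) := by norm_num
      rw [this, zpow_natCast, ih]
      rfl

/-- `Rep n k g`: `g` is a product with `n` powers of `t` and total `A`-exponent `k` -/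
inductive Rep : ℕ → ZMod 3 → TW → Prop
  | base (k : ZMod 3) : Rep 0 k (A k)
  | mulT {n : ℕ} {k : ZMod 3} {g : TW} (e : ℤ) (h : Rep n k g) : Rep (n + 1) k (g * t ^ e)
  | mulA {n : ℕ} {k : ZMod 3} {g : TW} (l : ZMod 3) (h : Rep n k g) : Rep n (k + l) (g * A l)

lemma Rep.mul {n m : ℕ} {k l : ZMod 3} {g h : TW} (hg : Rep n k g) (hh : Rep m l h) :
    Rep (n + m) (k + l) (g * h) := by
  induction hh with
  | base l => simpa using Rep.mulA l hg
  | mulT e _ ih =>
    rw [← mul_assoc, ← add_assoc]
    exact Rep.mulT e ih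
  | mulA l' _ ih =>
    rw [← mul_assoc, ← add_assoc]
    exact Rep.mulA l' ih

lemma Rep.tpow (e : ℤ) : Rep 1 0 (t ^ e) := by
  have := Rep.mulT e (Rep.base 0)
  simpa [A_zero] using this

lemma Rep.inv {n : ℕ} {k : ZMod 3} {g : TW} (hg : Rep n k g) : Rep n (-k) g⁻¹ := by
  induction hg with
  | base l => rw [A_inv]; exact Rep.base _
  | mulT e _ ih =>
    rw [mul_inv_rev, ← zpow_neg]
    have := (Rep.tpow (-e)).mul ih
    rwa [zero_add, add_comm 1] at this
  | mulA l' _ ih =>
    rw [mul_inv_rev, A_inv, neg_add, add_comm]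
    have := (Rep.base (-l')).mul ih
    rwa [zero_add] at this

lemma sum_three {M : Type*} [AddCommMonoid M] (f : ZMod 3 → M) :
    ∑ x, f x = f 0 + f 1 + f 2 := Fin.sum_univ_three f

lemma sum_shift {M : Type*} [AddCommMonoid M] (f : ZMod 3 → M) (l : ZMod 3) :
    ∑ x, f (x + l) = ∑ x, f x :=
  Fintype.sum_equiv (Equiv.addRight l) _ _ (fun _ => rfl)

lemma decomp {n : ℕ} {k : ZMod 3} {g : TW} (hg : Rep n k g) :
    ∃ (u : ZMod 3 → TW) (m : ZMod 3 → ℕ) (κ : ZMod 3 → ZMod 3),
      g = Phi u k ∧ (∀ x, Rep (m x) (κ x) (u x)) ∧ ∑ x, m x = n ∧ ∑ x, κ x = 0 ∧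
      (∀ x, m x = n → ∃ e : ℤ, g = A (k - (2 - x)) * t ^ e * A (2 - x)) := by
  induction hg with
  | base k =>
    refine ⟨fun _ => 1, fun _ => 0, fun _ => 0, rfl, ?_, by simp, by simp, ?_⟩
    · intro x
      rw [← A_zero]
      exact Rep.base 0
    · intro x _
      refine ⟨0, ?_⟩
      rw [zpow_zero, mul_one, A_mul]
      congr 1
      ring
  | @mulT n k g e hg ih =>
    obtain ⟨u, m, κ, h1, h2, h3, h4, h5⟩ := ih
    refine ⟨fun x => u x * c e x, fun x => if x = 2 then m x + 1 else m x,
      fun x => if x = 0 then κ x + e else if x = 1 then κ x + (-e) else κ x, ?_, ?_, ?_, ?_, ?_⟩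
    · rw [h1, tpow_eq, Phi_mul]
      simp
    · intro x
      by_cases hx0 : x = 0
      · subst hx0
        have : (0 : ZMod 3) ≠ 2 := by decide
        simp only [this, if_false, if_true, c]
        exact Rep.mulA _ (h2 0)
      · by_cases hx1 : x = 1
        · subst hx1
          have : (1 : ZMod 3) ≠ 2 := by decide
          simp only [this, hx0, if_false, if_true, c]
          exact Rep.mulA _ (h2 1)
        · have hx2 : x = 2 := by
            revert hx0 hx1
            revert x
            decide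
          subst hx2
          simp only [hx0, hx1, if_false, if_true, c]
          exact Rep.mulT _ (h2 2)
    · rw [sum_three] at h3 ⊢
      have h02 : (0 : ZMod 3) ≠ 2 := by decide
      have h12 : (1 : ZMod 3) ≠ 2 := by decide
      simp only [h02, h12, if_false, if_true]
      omega
    · rw [sum_three] at h4 ⊢
      have h10 : (1 : ZMod 3) ≠ 0 := by decide
      have h20 : (2 : ZMod 3) ≠ 0 := by decide
      have h21 : (2 : ZMod 3) ≠ 1 := by decide
      simp only [h10, h20, h21, if_false, if_true]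
      linear_combination h4
    · intro x hx
      have hle : ∀ y, m y ≤ n := by
        intro y
        rw [← h3]
        exact Finset.single_le_sum (fun _ _ => Nat.zero_le _) (Finset.mem_univ y)
      by_cases hx2 : x = 2
      · subst hx2
        simp only [if_true] at hx
        obtain ⟨e', he'⟩ := h5 2 (by omega)
        refine ⟨e' + e, ?_⟩
        rw [he']
        simp only [sub_self, A_zero, mul_one, zpow_add, mul_assoc]
      · exfalso
        simp only [hx2, if_false] at hx
        have := hle x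
        omega
  | @mulA n k g l hg ih =>
    obtain ⟨u, m, κ, h1, h2, h3, h4, h5⟩ := ih
    refine ⟨fun x => u (x + l), fun x => m (x + l), fun x => κ (x + l), ?_, ?_, ?_, ?_, ?_⟩
    · rw [h1, A, Phi_mul]
      simp
    · intro x
      exact h2 _
    · rw [sum_shift m l, h3]
    · rw [sum_shift κ l, h4]
    · intro x hx
      obtain ⟨e, he⟩ := h5 (x + l) hx
      refine ⟨e, ?_⟩
      rw [he, mul_assoc, A_mul]
      congr 2
      · congr 1
        ring
      · ring

lemma isOfFinOrder_Phi {u : ZMod 3 → TW} (hu : ∀ x, IsOfFinOrder (u x)) :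
    IsOfFinOrder (Phi u 0) := by
  rw [isOfFinOrder_iff_pow_eq_one]
  refine ⟨∏ x, orderOf (u x), Finset.prod_pos (fun x _ => (hu x).orderOf_pos), ?_⟩
  rw [Phi_pow, ← Phi_one]
  congr 1
  funext x
  exact orderOf_dvd_iff_pow_eq_one.mp (Finset.dvd_prod_of_mem _ (Finset.mem_univ x))

lemma isOfFinOrder_of_rep_zero (n : ℕ)
    (ih : ∀ m < n, ∀ (k : ZMod 3) (g : TW), Rep m k g → IsOfFinOrder g) (g : TW)
    (hg : Rep n 0 g) : IsOfFinOrder g := by
  obtain ⟨u, m, κ, h1, h2, h3, h4, h5⟩ := decomp hg
  by_cases hx : ∃ x, m x = n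
  · obtain ⟨x, hx⟩ := hx
    obtain ⟨e, he⟩ := h5 x hx
    have h6 : g = A (-(2 - x)) * t ^ e * (A (-(2 - x)))⁻¹ := by
      rw [he, A_inv]
      simp
    rw [isOfFinOrder_iff_pow_eq_one]
    refine ⟨3, by norm_num, ?_⟩
    rw [h6, conj_pow]
    have : (t ^ e) ^ 3 = 1 := by
      rw [← zpow_natCast, ← zpow_mul, mul_comm, zpow_mul, zpow_natCast, t_cube, one_zpow]
    rw [this]
    group
  · rw [h1]
    apply isOfFinOrder_Phi
    intro x
    have hle : m x ≤ n := by
      rw [← h3]
      exact Finset.single_le_sum (fun _ _ => Nat.zero_le _) (Finset.mem_univ x)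
    have hne : m x ≠ n := fun h => hx ⟨x, h⟩
    exact ih (m x) (by omega) (κ x) (u x) (h2 x)

lemma three_shift {M : Type*} [AddCommMonoid M] (f : ZMod 3 → M) (k x : ZMod 3) (hk : k ≠ 0) :
    f (x + k + k) + f (x + k) + f x = ∑ y, f y := by
  have h : (∀ k x : ZMod 3, k ≠ 0 → (x + k + k ≠ x + k ∧ x + k + k ≠ x ∧ x + k ≠ x ∧
      ∀ y, y = x + k + k ∨ y = x + k ∨ y = x)) := by decide
  obtain ⟨h1, h2, h3, h4⟩ := h k x hk
  have h5 : (Finset.univ : Finset (ZMod 3)) = {x + k + k, x + k, x} := by
    ext y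
    simpa using h4 y
  rw [h5, Finset.sum_insert (by simp [h1, h2]), Finset.sum_insert (by simp [h3]),
    Finset.sum_singleton, add_assoc]

theorem isOfFinOrder_of_rep (n : ℕ) :
    ∀ (k : ZMod 3) (g : TW), Rep n k g → IsOfFinOrder g := by
  induction n using Nat.strong_induction_on with
  | _ n ih =>
    intro k g hg
    by_cases hk : k = 0
    · subst hk
      exact isOfFinOrder_of_rep_zero n ih g hg
    · obtain ⟨u, m, κ, h1, h2, h3, h4, h5⟩ := decomp hg
      have h6 : g ^ 3 = Phi (fun x => u (x + k + k) * u (x + k) * u x) 0 := by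
        rw [h1, pow_succ, pow_two, Phi_mul, Phi_mul]
        congr 1
        have : ∀ k : ZMod 3, k + k + k = 0 := by decide
        exact this k
      have h7 : IsOfFinOrder (g ^ 3) := by
        rw [h6]
        apply isOfFinOrder_Phi
        intro x
        apply isOfFinOrder_of_rep_zero n ih
        have h8 := ((h2 (x + k + k)).mul (h2 (x + k))).mul (h2 x)
        rw [three_shift m k x hk, three_shift κ k x hk, h3, h4] at h8
        exact h8
      exact h7.of_pow (by norm_num)

/-- the Gupta-Sidki group -/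
def GS : Subgroup TW := Subgroup.closure {A 1, t}

lemma rep_of_mem {g : TW} (hg : g ∈ GS) : ∃ n k, Rep n k g := by
  induction hg using Subgroup.closure_induction with
  | mem x hx =>
    rcases hx with rfl | hx
    · exact ⟨0, 1, Rep.base 1⟩
    · rw [Set.mem_singleton_iff] at hx
      subst hx
      exact ⟨1, 0, by simpa using Rep.tpow 1⟩
  | one => exact ⟨0, 0, by rw [← A_zero]; exact Rep.base 0⟩
  | mul x y _ _ hx hy =>
    obtain ⟨n, k, h⟩ := hx
    obtain ⟨m, l, h'⟩ := hy
    exact ⟨_, _, h.mul h'⟩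
  | inv x _ hx =>
    obtain ⟨n, k, h⟩ := hx
    exact ⟨_, _, h.inv⟩

theorem GS_torsion (g : GS) : IsOfFinOrder g := by
  obtain ⟨n, k, h⟩ := rep_of_mem g.2
  have := isOfFinOrder_of_rep n k g.1 h
  exact (Submonoid.isOfFinOrder_coe).mp this

lemma A_mem : A 1 ∈ GS := Subgroup.subset_closure (by simp)
lemma t_mem : t ∈ GS := Subgroup.subset_closure (by simp)

lemma section_surj {g : TW} (hg : g ∈ GS) : ∃ u : ZMod 3 → TW, Phi u 0 ∈ GS ∧ u 0 = g := by
  induction hg using Subgroup.closure_induction with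
  | mem x hx =>
    rcases hx with rfl | hx
    · refine ⟨c 1, ?_, by simp [c]⟩
      rw [← t_eq]
      exact t_mem
    · rw [Set.mem_singleton_iff] at hx
      subst hx
      refine ⟨fun x => c 1 (x + (-1)), ?_, ?_⟩
      · have : Phi (fun x => c 1 (x + (-1))) 0 = A 1 * t * (A 1)⁻¹ := by
          rw [A_inv]
          nth_rewrite 1 [t_eq]
          rw [A, A, Phi_mul, Phi_mul]
          simp
        rw [this]
        exact GS.mul_mem (GS.mul_mem A_mem t_mem) (GS.inv_mem A_mem)
      · have h1 : (0 : ZMod 3) + (-1) ≠ 0 := by decide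
        have h2 : (0 : ZMod 3) + (-1) ≠ 1 := by decide
        simp only [c, h1, h2, if_false, zpow_one]
  | one => exact ⟨fun _ => 1, by rw [Phi_one]; exact GS.one_mem, rfl⟩
  | mul x y _ _ hx hy =>
    obtain ⟨u, hu, hu0⟩ := hx
    obtain ⟨v, hv, hv0⟩ := hy
    refine ⟨fun x => u x * v x, ?_, by simp [hu0, hv0]⟩
    have := GS.mul_mem hu hv
    rw [Phi_mul] at this
    simpa using this
  | inv x _ hx =>
    obtain ⟨u, hu, hu0⟩ := hx
    refine ⟨fun x => (u x)⁻¹, ?_, by simp [hu0]⟩
    have h1 := GS.inv_mem hu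
    have h2 : (Phi u 0)⁻¹ = Phi (fun x => (u x)⁻¹) 0 := by
      rw [inv_eq_iff_mul_eq_one, Phi_mul]
      simp [Phi_one]
    rwa [h2] at h1

theorem GS_infinite : Infinite GS := by
  classical
  by_contra hfin
  rw [not_infinite_iff_finite] at hfin
  have hf : (GS : Set TW).Finite := Set.toFinite _
  set S0 : Set TW := {g | g ∈ GS ∧ ∃ u, g = Phi u 0} with hS0
  let f : TW → TW := fun g => if h : ∃ u, g = Phi u 0 then (Classical.choose h) 0 else 1
  have hsub : (GS : Set TW) ⊆ f '' S0 := by
    intro g hg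
    obtain ⟨u, hu, hu0⟩ := section_surj hg
    refine ⟨Phi u 0, ⟨hu, u, rfl⟩, ?_⟩
    have hex : ∃ v, Phi u 0 = Phi v 0 := ⟨u, rfl⟩
    show (if h : ∃ v, Phi u 0 = Phi v 0 then (Classical.choose h) 0 else 1) = g
    rw [dif_pos hex]
    have := Classical.choose_spec hex
    rw [← (Phi_inj this).1]
    exact hu0
  have hS0sub : S0 ⊂ (GS : Set TW) := by
    refine ⟨fun g hg => hg.1, fun h => ?_⟩
    have := h A_mem
    obtain ⟨_, u, hu⟩ := this
    have := (Phi_inj hu).2
    revert this
    decide
  have hS0f : S0.Finite := hf.subset hS0sub.1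
  have h1 : (GS : Set TW).ncard ≤ (f '' S0).ncard := Set.ncard_le_ncard hsub (hS0f.image f)
  have h2 : (f '' S0).ncard ≤ S0.ncard := Set.ncard_image_le hS0f
  have h3 : S0.ncard < (GS : Set TW).ncard := Set.ncard_lt_ncard hS0sub hf
  omega

end Pool.Agent.Lib.MP_2bc940_al
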