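import Mathlib
import Pool.Agent.Lib.MP_2bc940_al.ClassBound

set_option autoImplicit false

namespace Pool.Agent.Lib.MP_2bc940_al

open Pointwise Multiplicative

/-- the moves of the lamplighter -/
def PZ : Finset (Multiplicative ℤ) := {ofAdd (-1), 1, ofAdd 1}

lemma one_mem_PZ : (1 : Multiplicative ℤ) ∈ PZ := by simp [PZ]

lemma inv_mem_PZ : ∀ s ∈ PZ, s⁻¹ ∈ PZ := by decide

section upper

variable {D : Type} [CommGroup D] [Fintype D]

lemma interval_of_mem_pow [DecidableEq (RegularWreathProduct D (Multiplicative ℤ))] (n : ℕ) (g : RegularWreathProduct D (Multiplicative ℤ))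
    (hg : g ∈ (gens D PZ) ^ n) :
    ∃ i j : ℕ, i + j ≤ n ∧ -(i : ℤ) ≤ toAdd g.right ∧ toAdd g.right ≤ (j : ℤ) ∧
      ∀ x, g.left x ≠ 1 → -(i : ℤ) ≤ toAdd x ∧ toAdd x ≤ (j : ℤ) := by
  induction n generalizing g with
  | zero =>
    rw [pow_zero, Finset.mem_one] at hg
    subst hg
    exact ⟨0, 0, by simp, by simp, by simp, fun x hx => absurd rfl hx⟩
  | succ n ih =>
    rw [pow_succ, Finset.mem_mul] at hg
    obtain ⟨g', hg', a, ha, rfl⟩ := hg
    obtain ⟨d, s, hs, d', rfl⟩ := (mem_gens PZ a).mp ha
    obtain ⟨i, j, h1, h2, h3, h4⟩ := ih g' hg'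
    have hright : toAdd (g' * step d s d').right = toAdd g'.right + toAdd s := by
      rw [right_mul_step]; rfl
    have hleft : ∀ x, (g' * step d s d').left x ≠ 1 →
        g'.left x ≠ 1 ∨ toAdd x = toAdd g'.right ∨ toAdd x = toAdd g'.right + toAdd s := by
      intro x hx
      rw [left_mul_step] at hx
      by_cases hx1 : x = g'.right * s
      · right; right; rw [hx1]; rfl
      · by_cases hx2 : x = g'.right
        · right; left; rw [hx2]
        · left
          rwa [if_neg hx1, if_neg hx2, mul_one, mul_one] at hx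
    have hs' : toAdd s = -1 ∨ toAdd s = 0 ∨ toAdd s = 1 := by
      simp only [PZ, Finset.mem_insert, Finset.mem_singleton] at hs
      rcases hs with rfl | rfl | rfl
      · left; rfl
      · right; left; rfl
      · right; right; rfl
    rcases hs' with hs' | hs' | hs'
    · refine ⟨i + 1, j, by omega, ?_, ?_, ?_⟩
      · rw [hright]; push_cast; omega
      · rw [hright]; omega
      · intro x hx
        rcases hleft x hx with h | h | h
        · have := h4 x h
          push_cast
          omega
        · push_cast; omega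
        · push_cast; omega
    · refine ⟨i, j, by omega, ?_, ?_, ?_⟩
      · rw [hright]; omega
      · rw [hright]; omega
      · intro x hx
        rcases hleft x hx with h | h | h
        · exact h4 x h
        · omega
        · omega
    · refine ⟨i, j + 1, by omega, ?_, ?_, ?_⟩
      · rw [hright]; omega
      · rw [hright]; push_cast; omega
      · intro x hx
        rcases hleft x hx with h | h | h
        · have := h4 x h
          push_cast
          omega
        · push_cast; omega
        · push_cast; omega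

lemma card_lamp_pow_le [DecidableEq (RegularWreathProduct D (Multiplicative ℤ))] (n : ℕ) :
    ((gens D PZ) ^ n).card ≤ (n + 1) * ((2 * n + 1) * (Fintype.card D) ^ (n + 1)) := by
  let Data := Fin (n + 1) × (Fin (2 * n + 1) × (Fin (n + 1) → D))
  let E : Data → RegularWreathProduct D (Multiplicative ℤ) := fun p =>
    ⟨fun x => if h : (toAdd x + (p.1 : ℤ)).toNat < n + 1 ∧ 0 ≤ toAdd x + (p.1 : ℤ) then
      p.2.2 ⟨(toAdd x + (p.1 : ℤ)).toNat, h.1⟩ else 1, ofAdd ((p.2.1 : ℤ) - n)⟩
  have hsub : (gens D PZ) ^ n ⊆ (Finset.univ : Finset Data).image E := by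
    intro g hg
    obtain ⟨i, j, h1, h2, h3, h4⟩ := interval_of_mem_pow n g hg
    rw [Finset.mem_image]
    refine ⟨(⟨i, by omega⟩, ⟨(toAdd g.right + n).toNat, by omega⟩,
      fun m => g.left (ofAdd ((m : ℤ) - i))), Finset.mem_univ _, ?_⟩
    ext x
    · show (if h : (toAdd x + (i : ℤ)).toNat < n + 1 ∧ 0 ≤ toAdd x + (i : ℤ) then
        g.left (ofAdd (((toAdd x + (i : ℤ)).toNat : ℤ) - i)) else 1) = g.left x
      split_ifs with h
      · rw [Int.toNat_of_nonneg h.2]
        congr 1
        simp
      · by_contra hne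
        have := h4 x (fun h' => hne h'.symm)
        omega
    · show ofAdd ((((toAdd g.right + n).toNat : ℕ) : ℤ) - n) = g.right
      rw [Int.toNat_of_nonneg (by omega)]
      simp
  refine (Finset.card_le_card hsub).trans (Finset.card_image_le.trans ?_)
  rw [Finset.card_univ]
  simp [Data]

end upper

section lower

variable {D : Type} [CommGroup D] [Fintype D]

lemma finite_support_of_mem {w : RegularWreathProduct D (Multiplicative ℤ)}
    (hw : w ∈ Subgroup.closure (gens D PZ : Set (RegularWreathProduct D (Multiplicative ℤ)))) :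
    ∃ M : ℤ, ∀ x, M ≤ |toAdd x| → w.left x = 1 := by
  induction hw using Subgroup.closure_induction with
  | mem w hw =>
    obtain ⟨d, s, hs, d', rfl⟩ := (mem_gens PZ w).mp hw
    refine ⟨|toAdd s| + 1, ?_⟩
    intro x hx
    have := left_mul_step (1 : RegularWreathProduct D (Multiplicative ℤ)) d s d' x
    rw [one_mul] at this
    rw [this]
    simp only [RegularWreathProduct.one_left, RegularWreathProduct.one_right, Pi.one_apply,
      one_mul]
    have h1 : x ≠ 1 := by
      rintro rfl
      simp only [toAdd_one, abs_zero] at hx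
      have := abs_nonneg (toAdd s)
      omega
    have h2 : x ≠ s := by
      rintro rfl
      omega
    simp [h1, h2]
  | one => exact ⟨0, fun x _ => rfl⟩
  | mul a b _ _ ha hb =>
    obtain ⟨M, hM⟩ := ha
    obtain ⟨N, hN⟩ := hb
    refine ⟨max M (N + |toAdd a.right|), ?_⟩
    intro x hx
    rw [left_mul_apply, hM x (le_trans (le_max_left _ _) hx), one_mul]
    apply hN
    have h1 : N + |toAdd a.right| ≤ |toAdd x| := le_trans (le_max_right _ _) hx
    have h2 : toAdd (a.right⁻¹ * x) = -toAdd a.right + toAdd x := rfl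
    rw [h2]
    have h3 : |toAdd x| ≤ |toAdd a.right| + |-toAdd a.right + toAdd x| := by
      have := abs_add_le (toAdd a.right) (-toAdd a.right + toAdd x)
      simpa using this
    omega
  | inv a _ ha =>
    obtain ⟨M, hM⟩ := ha
    refine ⟨M + |toAdd a.right|, ?_⟩
    intro x hx
    rw [left_inv_apply, hM, inv_one]
    have h2 : toAdd (a.right * x) = toAdd a.right + toAdd x := rfl
    rw [h2]
    have h3 : |toAdd x| ≤ |-toAdd a.right| + |toAdd a.right + toAdd x| := by
      have := abs_add_le (-toAdd a.right) (toAdd a.right + toAdd x)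
      simpa using this
    rw [abs_neg] at h3
    omega

/-- the periodic element with lamps `u` -/
def per (n : ℕ) (u : Fin n → D) : RegularWreathProduct D (Multiplicative ℤ) :=
  ⟨fun x => if h : (toAdd x).toNat < n ∧ 0 ≤ toAdd x then u ⟨(toAdd x).toNat, h.1⟩ else 1,
    ofAdd (n : ℤ)⟩

omit [Fintype D] in
lemma per_left_eq (n : ℕ) (u : Fin n → D) (m : ℕ) (hm : m < n) :
    (per n u).left (ofAdd (m : ℤ)) = u ⟨m, hm⟩ := by
  show (if h : (toAdd (ofAdd (m : ℤ))).toNat < n ∧ 0 ≤ toAdd (ofAdd (m : ℤ)) then
    u ⟨(toAdd (ofAdd (m : ℤ))).toNat, h.1⟩ else 1) = _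
  rw [dif_pos (by simpa using hm)]
  congr 1

omit [Fintype D] in
lemma per_left_one (n : ℕ) (u : Fin n → D) (m : ℤ) (hm : m < 0 ∨ (n : ℤ) ≤ m) :
    (per n u).left (ofAdd m) = 1 := by
  show (if h : (toAdd (ofAdd m)).toNat < n ∧ 0 ≤ toAdd (ofAdd m) then
    u ⟨(toAdd (ofAdd m)).toNat, h.1⟩ else 1) = _
  rw [dif_neg]
  rw [toAdd_ofAdd]
  omega

lemma per_mem_pow [DecidableEq (RegularWreathProduct D (Multiplicative ℤ))] (n : ℕ) (hn : 1 ≤ n) (u : Fin n → D) : per n u ∈ (gens D PZ) ^ n := by
  have h1 := mem_pow_of_path (P := PZ) (List.replicate n (ofAdd (1 : ℤ)))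
    (by intro s hs; rw [List.eq_of_mem_replicate hs]; simp [PZ]) (per n u).left (by
      intro x hx
      have h2 : 0 ≤ toAdd x ∧ toAdd x < n := by
        by_contra hcon
        apply hx
        have := per_left_one n u (toAdd x) (by omega)
        simpa using this
      refine ⟨(toAdd x).toNat, by simp; omega, ?_⟩
      rw [List.take_replicate, List.prod_replicate]
      have h3 : min (toAdd x).toNat n = (toAdd x).toNat := by omega
      rw [h3]
      apply toAdd.injective
      rw [toAdd_pow, toAdd_ofAdd]
      simp only [mul_one, nsmul_eq_mul]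
      omega) (by simpa using hn)
  rw [List.length_replicate] at h1
  have h2 : (⟨(per n u).left, (List.replicate n (ofAdd (1 : ℤ))).prod⟩ :
      RegularWreathProduct D (Multiplicative ℤ)) = per n u := by
    ext x
    · rfl
    · rw [List.prod_replicate]
      apply toAdd.injective
      rw [toAdd_pow, toAdd_ofAdd]
      show (n : ℕ) • (1 : ℤ) = n
      simp
  rw [h2] at h1
  exact h1

/-- rotation of periodic lamp configurations -/
def rot (n : ℕ) (u : Fin n → D) (c : ℕ) : Fin n → D := fun r =>
  u ⟨(r + c) % n, Nat.mod_lt _ (by have := r.2; omega)⟩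

lemma conj_per (n : ℕ) (hn : 1 ≤ n) (u v : Fin n → D)
    (w : RegularWreathProduct D (Multiplicative ℤ))
    (hw : w ∈ Subgroup.closure (gens D PZ : Set (RegularWreathProduct D (Multiplicative ℤ))))
    (h : w * per n u * w⁻¹ = per n v) : ∃ c < n, v = rot n u c := by
  obtain ⟨M0, hM0⟩ := finite_support_of_mem hw
  rw [mul_inv_eq_iff_eq_mul] at h
  set j : ℤ := toAdd w.right with hj
  have hn' : (0 : ℤ) < n := by exact_mod_cast hn
  have heq : ∀ m : ℤ, w.left (ofAdd m) * (per n u).left (ofAdd (m - j)) =
      (per n v).left (ofAdd m) * w.left (ofAdd (m - n)) := by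
    intro m
    have := congrArg (fun z => z.left (ofAdd m)) h
    simp only [left_mul_apply] at this
    have e1 : w.right⁻¹ * ofAdd m = ofAdd (m - j) := by
      apply toAdd.injective
      rw [toAdd_mul, toAdd_inv, toAdd_ofAdd, toAdd_ofAdd, ← hj]
      ring
    have e2 : (per n v).right⁻¹ * ofAdd m = ofAdd (m - n) := by
      apply toAdd.injective
      show -(n : ℤ) + m = m - n
      ring
    rw [e1, e2] at this
    exact this
  refine ⟨((-j) % n).toNat, ?_, ?_⟩
  · have h1 := Int.emod_lt_of_pos (-j) hn'
    have h2 := Int.emod_nonneg (-j) hn'.ne'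
    omega
  funext r
  -- a large number of periods
  obtain ⟨M, hM1, hM2⟩ : ∃ M : ℕ, |M0| + |(r : ℤ)| + 2 * n + |j| < M ∧ 0 < M := by
    refine ⟨(|M0| + |(r : ℤ)| + 2 * n + |j|).toNat + 1, ?_, by omega⟩
    push_cast
    have := Int.self_le_toNat (|M0| + |(r : ℤ)| + 2 * n + |j|)
    omega
  have hM3 := le_abs_self M0
  have hM4 := abs_nonneg M0
  let H : ℕ → D := fun i => w.left (ofAdd ((r : ℤ) + ((i : ℤ) - 1 - M) * n))
  have hH0 : H 0 = 1 := by
    apply hM0
    rw [toAdd_ofAdd]
    have : (r : ℤ) + (((0 : ℕ) : ℤ) - 1 - M) * n ≤ -M0 := by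
      have h1 : ((M : ℤ) + 1) * 1 ≤ ((M : ℤ) + 1) * n := by
        apply mul_le_mul_of_nonneg_left _ (by omega)
        omega
      have h2 := le_abs_self (r : ℤ)
      have h3 := abs_nonneg j
      push_cast
      nlinarith
    have := neg_abs_le ((r : ℤ) + (((0 : ℕ) : ℤ) - 1 - M) * n)
    omega
  have hH1 : H (2 * M) = 1 := by
    apply hM0
    rw [toAdd_ofAdd]
    have : M0 ≤ (r : ℤ) + (((2 * M : ℕ) : ℤ) - 1 - M) * n := by
      have h1 : ((M : ℤ) - 1) * 1 ≤ ((M : ℤ) - 1) * n := by
        apply mul_le_mul_of_nonneg_left _ (by omega)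
        omega
      have h3 := abs_nonneg j
      have h4 := abs_nonneg (r : ℤ)
      push_cast
      nlinarith
    exact this.trans (le_abs_self _)
  have hprod : ∏ i ∈ Finset.range (2 * M), H (i + 1) = ∏ i ∈ Finset.range (2 * M), H i := by
    have e1 := Finset.prod_range_succ H (2 * M)
    have e2 := Finset.prod_range_succ' H (2 * M)
    rw [e1, hH0, hH1, mul_one, mul_one] at e2
    exact e2.symm
  have hall : (∏ i ∈ Finset.range (2 * M), (per n u).left (ofAdd ((r : ℤ) + ((i : ℤ) - M) * n - j)))
      = ∏ i ∈ Finset.range (2 * M), (per n v).left (ofAdd ((r : ℤ) + ((i : ℤ) - M) * n)) := by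
    have e1 : ∏ i ∈ Finset.range (2 * M), (H (i + 1) *
        (per n u).left (ofAdd ((r : ℤ) + ((i : ℤ) - M) * n - j))) =
        ∏ i ∈ Finset.range (2 * M), ((per n v).left (ofAdd ((r : ℤ) + ((i : ℤ) - M) * n)) * H i) := by
      apply Finset.prod_congr rfl
      intro i _
      have := heq ((r : ℤ) + ((i : ℤ) - M) * n)
      have e2 : H (i + 1) = w.left (ofAdd ((r : ℤ) + ((i : ℤ) - M) * n)) := by
        show w.left (ofAdd ((r : ℤ) + (((i + 1 : ℕ) : ℤ) - 1 - M) * n)) = _
        congr 3
        push_cast
        ring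
      have e3 : H i = w.left (ofAdd ((r : ℤ) + ((i : ℤ) - M) * n - n)) := by
        show w.left (ofAdd ((r : ℤ) + ((i : ℤ) - 1 - M) * n)) = _
        congr 2
        ring
      rw [e2, e3]
      exact this
    rw [Finset.prod_mul_distrib, Finset.prod_mul_distrib, hprod, mul_comm] at e1
    exact mul_right_cancel e1
  -- evaluate both sides
  have hr := r.2
  have hright : ∏ i ∈ Finset.range (2 * M), (per n v).left (ofAdd ((r : ℤ) + ((i : ℤ) - M) * n))
      = v r := by
    rw [Finset.prod_eq_single M]
    · rw [sub_self, zero_mul, add_zero]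
      exact per_left_eq n v r hr
    · intro i _ hi
      apply per_left_one
      rcases lt_or_gt_of_ne hi with h | h
      · left
        have : ((i : ℤ) - M) * n ≤ (-1) * n := by
          apply mul_le_mul_of_nonneg_right _ hn'.le
          omega
        omega
      · right
        have : 1 * (n : ℤ) ≤ ((i : ℤ) - M) * n := by
          apply mul_le_mul_of_nonneg_right _ hn'.le
          omega
        omega
    · intro hM
      simp only [Finset.mem_range, not_lt] at hM
      omega
  have hb0 := Int.emod_nonneg ((r : ℤ) - j) hn'.ne'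
  have hb1 := Int.emod_lt_of_pos ((r : ℤ) - j) hn'
  set a := ((r : ℤ) - j) / n with ha
  set b := ((r : ℤ) - j) % n with hb
  have hab : (r : ℤ) - j = b + n * a := by
    rw [ha, hb]
    exact (Int.emod_add_mul_ediv ((r : ℤ) - j) n).symm
  have haM : |a| < M := by
    have h1 : |a| * 1 ≤ |a| * n := by
      apply mul_le_mul_of_nonneg_left _ (abs_nonneg _)
      omega
    have h2 : |a| * n = |(r : ℤ) - j - b| := by
      have : (r : ℤ) - j - b = n * a := by omega
      rw [this, abs_mul, abs_of_pos hn', mul_comm]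
    have h3 : |(r : ℤ) - j - b| ≤ |(r : ℤ)| + |j| + n := by
      have := abs_sub (r : ℤ) j
      have h5 := abs_sub ((r : ℤ) - j) b
      have h6 : |b| = b := abs_of_nonneg hb0
      omega
    omega
  have hleft : ∏ i ∈ Finset.range (2 * M), (per n u).left (ofAdd ((r : ℤ) + ((i : ℤ) - M) * n - j))
      = u ⟨b.toNat, by omega⟩ := by
    have haM' := abs_lt.mp haM
    rw [Finset.prod_eq_single (M - a).toNat]
    · have e1 : (r : ℤ) + (((M - a).toNat : ℤ) - M) * n - j = b := by
        rw [Int.toNat_of_nonneg (by omega)]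
        have : (r : ℤ) + (M - a - M) * n - j = ((r : ℤ) - j) - n * a := by ring
        rw [this, hab]
        ring
      rw [e1]
      have := per_left_eq n u b.toNat (by omega)
      rw [Int.toNat_of_nonneg hb0] at this
      exact this
    · intro i _ hi
      apply per_left_one
      have e1 : (r : ℤ) + ((i : ℤ) - M) * n - j = b + ((i : ℤ) - (M - a)) * n := by
        have : (r : ℤ) + ((i : ℤ) - M) * n - j = ((r : ℤ) - j) + ((i : ℤ) - M) * n := by ring
        rw [this, hab]
        ring
      rw [e1]
      have hi2 : (i : ℤ) ≠ M - a := by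
        intro h'
        apply hi
        omega
      rcases lt_or_gt_of_ne hi2 with h | h
      · left
        have : ((i : ℤ) - (M - a)) * n ≤ (-1) * n := by
          apply mul_le_mul_of_nonneg_right _ hn'.le
          omega
        omega
      · right
        have : 1 * (n : ℤ) ≤ ((i : ℤ) - (M - a)) * n := by
          apply mul_le_mul_of_nonneg_right _ hn'.le
          omega
        omega
    · intro hM
      simp only [Finset.mem_range, not_lt] at hM
      omega
  rw [hleft, hright] at hall
  rw [← hall]
  unfold rot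
  congr 1
  apply Fin.ext
  show b.toNat = (r + ((-j) % n).toNat) % n
  have h2 := Int.emod_nonneg (-j) hn'.ne'
  have e5 : (b.toNat : ℤ) = (((r + ((-j) % n).toNat) % n : ℕ) : ℤ) := by
    push_cast
    rw [Int.toNat_of_nonneg hb0, Int.toNat_of_nonneg h2, hb, sub_eq_add_neg,
      Int.add_emod_emod]
  exact_mod_cast e5

theorem class_lower [DecidableEq (Subgroup.closure
    (gens D PZ : Set (RegularWreathProduct D (Multiplicative ℤ))))] (n : ℕ) (hn : 1 ≤ n) :
    (Fintype.card D) ^ n ≤ (n + 1) * (ConjClasses.mk '' (((subS (gens D PZ)) ^ n :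
      Finset (Subgroup.closure (gens D PZ : Set (RegularWreathProduct D (Multiplicative ℤ))))) :
      Set (Subgroup.closure
        (gens D PZ : Set (RegularWreathProduct D (Multiplicative ℤ)))))).ncard := by
  classical
  let K := Subgroup.closure (gens D PZ : Set (RegularWreathProduct D (Multiplicative ℤ)))
  let f : (Fin n → D) → ConjClasses K := fun u =>
    ConjClasses.mk ⟨per n u, pow_subset_closure _ n _ (per_mem_pow n hn u)⟩
  have h1 : (Finset.univ : Finset (Fin n → D)).card ≤
      n * ((Finset.univ : Finset (Fin n → D)).image f).card := by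
    apply Finset.card_le_mul_card_image
    intro a ha
    obtain ⟨u, _, rfl⟩ := Finset.mem_image.mp ha
    have h2 : (Finset.univ.filter (fun v => f v = f u)) ⊆ (Finset.range n).image (rot n u) := by
      intro v hv
      rw [Finset.mem_filter] at hv
      have h3 := hv.2.symm
      rw [ConjClasses.mk_eq_mk_iff_isConj, isConj_iff] at h3
      obtain ⟨w, hw⟩ := h3
      obtain ⟨c, hc, hc2⟩ := conj_per n hn u v w.1 w.2 (congrArg Subtype.val hw)
      rw [Finset.mem_image]
      exact ⟨c, Finset.mem_range.mpr hc, hc2.symm⟩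
    refine (Finset.card_le_card h2).trans (Finset.card_image_le.trans ?_)
    rw [Finset.card_range]
  have h4 : (((Finset.univ : Finset (Fin n → D)).image f : Finset (ConjClasses K)) :
      Set (ConjClasses K)) ⊆ (ConjClasses.mk '' (((subS (gens D PZ)) ^ n : Finset K) : Set K)) := by
    intro a ha
    rw [Finset.mem_coe, Finset.mem_image] at ha
    obtain ⟨u, _, rfl⟩ := ha
    exact ⟨_, (mem_subS_pow _ n _).mpr (per_mem_pow n hn u), rfl⟩
  have h5 := Set.ncard_le_ncard h4 ((Finset.finite_toSet _).image _)
  rw [Set.ncard_coe_finset] at h5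
  rw [Finset.card_univ, Fintype.card_fun, Fintype.card_fin] at h1
  calc _ ≤ n * ((Finset.univ : Finset (Fin n → D)).image f).card := h1
    _ ≤ (n + 1) * _ := Nat.mul_le_mul (by omega) h5

end lower

end Pool.Agent.Lib.MP_2bc940_al
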