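import Mathlib
import Pool.Agent.Lib.MP_2bc940_al.Basics

set_option autoImplicit false

namespace Pool.Agent.Lib.MP_2bc940_al

open Pointwise Filter Topology

section prod

variable {H K : Type} [Group H] [Group K] [DecidableEq H] [DecidableEq K]

/-- the union of two generating sets of the factors of a direct product -/
def unionGen (SH : Finset H) (SK : Finset K) : Finset (H × K) :=
  (SH ×ˢ {1}) ∪ ({1} ×ˢ SK)

lemma mem_unionGen (SH : Finset H) (SK : Finset K) (p : H × K) :
    p ∈ unionGen SH SK ↔ (p.1 ∈ SH ∧ p.2 = 1) ∨ (p.1 = 1 ∧ p.2 ∈ SK) := by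
  unfold unionGen
  rw [Finset.mem_union, Finset.mem_product, Finset.mem_product]
  simp

lemma one_mem_unionGen {SH : Finset H} {SK : Finset K} (h1 : (1 : H) ∈ SH) :
    (1 : H × K) ∈ unionGen SH SK := by
  rw [mem_unionGen]
  exact Or.inl ⟨h1, rfl⟩

lemma inv_mem_unionGen {SH : Finset H} {SK : Finset K} (hH : ∀ x ∈ SH, x⁻¹ ∈ SH)
    (hK : ∀ x ∈ SK, x⁻¹ ∈ SK) : ∀ x ∈ unionGen SH SK, x⁻¹ ∈ unionGen SH SK := by
  intro x hx
  rw [mem_unionGen] at hx ⊢
  rcases hx with ⟨h1, h2⟩ | ⟨h1, h2⟩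
  · exact Or.inl ⟨hH _ h1, by simp [h2]⟩
  · exact Or.inr ⟨by simp [h1], hK _ h2⟩

lemma closure_unionGen {SH : Finset H} {SK : Finset K}
    (hH : Subgroup.closure (SH : Set H) = ⊤) (hK : Subgroup.closure (SK : Set K) = ⊤) :
    Subgroup.closure (unionGen SH SK : Set (H × K)) = ⊤ := by
  have h1 : Subgroup.closure (SH : Set H) ≤
      (Subgroup.closure (unionGen SH SK : Set (H × K))).comap (MonoidHom.inl H K) := by
    rw [Subgroup.closure_le]
    intro x hx
    apply Subgroup.subset_closure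
    rw [Finset.mem_coe, mem_unionGen]
    exact Or.inl ⟨hx, rfl⟩
  have h2 : Subgroup.closure (SK : Set K) ≤
      (Subgroup.closure (unionGen SH SK : Set (H × K))).comap (MonoidHom.inr H K) := by
    rw [Subgroup.closure_le]
    intro x hx
    apply Subgroup.subset_closure
    rw [Finset.mem_coe, mem_unionGen]
    exact Or.inr ⟨rfl, hx⟩
  rw [eq_top_iff]
  rintro ⟨h, k⟩ -
  have h3 : MonoidHom.inl H K h ∈ Subgroup.closure (unionGen SH SK : Set (H × K)) :=
    h1 (by rw [hH]; trivial)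
  have h4 : MonoidHom.inr H K k ∈ Subgroup.closure (unionGen SH SK : Set (H × K)) :=
    h2 (by rw [hK]; trivial)
  have := Subgroup.mul_mem _ h3 h4
  simpa using this

lemma mem_unionGen_pow {SH : Finset H} {SK : Finset K} (n : ℕ) :
    ∀ p ∈ (unionGen SH SK) ^ n, ∃ i ≤ n, p.1 ∈ SH ^ i ∧ p.2 ∈ SK ^ (n - i) := by
  induction n with
  | zero =>
    intro p hp
    rw [pow_zero, Finset.mem_one] at hp
    subst hp
    exact ⟨0, le_rfl, by simp, by simp⟩
  | succ n ih =>
    intro p hp
    rw [pow_succ, Finset.mem_mul] at hp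
    obtain ⟨q, hq, r, hr, rfl⟩ := hp
    obtain ⟨i, hi, h1, h2⟩ := ih q hq
    rw [mem_unionGen] at hr
    rcases hr with ⟨h3, h4⟩ | ⟨h3, h4⟩
    · refine ⟨i + 1, by omega, ?_, ?_⟩
      · rw [pow_succ]
        exact Finset.mul_mem_mul h1 h3
      · rw [Prod.snd_mul, h4, mul_one, Nat.add_sub_add_right]
        exact h2
    · refine ⟨i, by omega, ?_, ?_⟩
      · rw [Prod.fst_mul, h3, mul_one]
        exact h1
      · have : n + 1 - i = (n - i) + 1 := by omega
        rw [this, pow_succ]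
        exact Finset.mul_mem_mul h2 h4

lemma card_unionGen_pow_le (SH : Finset H) (SK : Finset K) (n : ℕ) :
    ((unionGen SH SK) ^ n).card ≤
      ∑ i ∈ Finset.range (n + 1), (SH ^ i).card * (SK ^ (n - i)).card := by
  have h1 : (unionGen SH SK) ^ n ⊆
      (Finset.range (n + 1)).biUnion (fun i => (SH ^ i) ×ˢ (SK ^ (n - i))) := by
    intro p hp
    obtain ⟨i, hi, h1, h2⟩ := mem_unionGen_pow n p hp
    rw [Finset.mem_biUnion]
    exact ⟨i, by simp; omega, Finset.mem_product.mpr ⟨h1, h2⟩⟩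
  refine (Finset.card_le_card h1).trans (Finset.card_biUnion_le.trans ?_)
  apply Finset.sum_le_sum
  intro i _
  rw [Finset.card_product]

omit [DecidableEq H] [DecidableEq K] in
lemma isConj_prod {h h' : H} (hh : IsConj h h') (k : K) : IsConj (h, k) (h', k) := by
  rw [isConj_iff] at hh ⊢
  obtain ⟨c, rfl⟩ := hh
  exact ⟨(c, 1), by simp⟩

open Classical in
lemma ncard_classes_unionGen_pow_le (SH : Finset H) (SK : Finset K) (n : ℕ) :
    (ConjClasses.mk '' (((unionGen SH SK) ^ n : Finset (H × K)) : Set (H × K))).ncard ≤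
      ∑ i ∈ Finset.range (n + 1),
        (ConjClasses.mk '' ((SH ^ i : Finset H) : Set H)).ncard * (SK ^ (n - i)).card := by
  let F : ConjClasses H × K → ConjClasses (H × K) := fun p => ConjClasses.mk (Quotient.out p.1, p.2)
  have hfin : ∀ i, (ConjClasses.mk '' ((SH ^ i : Finset H) : Set H)).Finite :=
    fun i => (Finset.finite_toSet _).image _
  have h1 : (ConjClasses.mk '' (((unionGen SH SK) ^ n : Finset (H × K)) : Set (H × K))) ⊆
      ((Finset.range (n + 1)).biUnion
        (fun i => ((hfin i).toFinset ×ˢ (SK ^ (n - i))).image F) : Set (ConjClasses (H × K))) := by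
    rintro _ ⟨p, hp, rfl⟩
    obtain ⟨i, hi, h1, h2⟩ := mem_unionGen_pow n p hp
    rw [Finset.mem_coe, Finset.mem_biUnion]
    refine ⟨i, by simp; omega, ?_⟩
    rw [Finset.mem_image]
    refine ⟨(ConjClasses.mk p.1, p.2), ?_, ?_⟩
    · rw [Finset.mem_product]
      refine ⟨?_, h2⟩
      rw [Set.Finite.mem_toFinset]
      exact ⟨p.1, h1, rfl⟩
    · show ConjClasses.mk (Quotient.out (ConjClasses.mk p.1), p.2) = ConjClasses.mk p
      rw [ConjClasses.mk_eq_mk_iff_isConj]
      have : IsConj (Quotient.out (ConjClasses.mk p.1)) p.1 := by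
        rw [← ConjClasses.mk_eq_mk_iff_isConj]
        exact Quotient.out_eq _
      exact isConj_prod this p.2
  refine (Set.ncard_le_ncard h1 (Finset.finite_toSet _)).trans ?_
  rw [Set.ncard_coe_finset]
  refine Finset.card_biUnion_le.trans ?_
  apply Finset.sum_le_sum
  intro i _
  refine Finset.card_image_le.trans ?_
  rw [Finset.card_product, Set.ncard_eq_toFinset_card _ (hfin i)]

lemma card_le_card_unionGen_pow (SH : Finset H) (SK : Finset K) (n : ℕ) :
    (SH ^ n).card ≤ ((unionGen SH SK) ^ n).card := by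
  have h1 : ∀ n, ∀ h ∈ SH ^ n, ((h, 1) : H × K) ∈ (unionGen SH SK) ^ n := by
    intro n
    induction n with
    | zero => intro h hh; simpa using hh
    | succ n ih =>
      intro h hh
      rw [pow_succ, Finset.mem_mul] at hh
      obtain ⟨a, ha, b, hb, rfl⟩ := hh
      rw [pow_succ]
      have : ((a * b, 1) : H × K) = (a, 1) * (b, 1) := by simp
      rw [this]
      apply Finset.mul_mem_mul (ih a ha)
      rw [mem_unionGen]
      exact Or.inl ⟨hb, rfl⟩
  apply Finset.card_le_card_of_injOn (fun h => (h, 1)) (fun h hh => h1 n h hh)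
  intro a _ b _ hab
  exact (Prod.mk.inj hab).1

lemma ncard_classes_le_unionGen_pow (SH : Finset H) (SK : Finset K) (n : ℕ) :
    (ConjClasses.mk '' ((SK ^ n : Finset K) : Set K)).ncard ≤
    (ConjClasses.mk '' (((unionGen SH SK) ^ n : Finset (H × K)) : Set (H × K))).ncard := by
  have h1 : ∀ n, ∀ k ∈ SK ^ n, ((1, k) : H × K) ∈ (unionGen SH SK) ^ n := by
    intro n
    induction n with
    | zero => intro h hh; simpa using hh
    | succ n ih =>
      intro h hh
      rw [pow_succ, Finset.mem_mul] at hh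
      obtain ⟨a, ha, b, hb, rfl⟩ := hh
      rw [pow_succ]
      have : ((1, a * b) : H × K) = (1, a) * (1, b) := by simp
      rw [this]
      apply Finset.mul_mem_mul (ih a ha)
      rw [mem_unionGen]
      exact Or.inr ⟨rfl, hb⟩
  have h2 : (ConjClasses.mk '' ((SK ^ n : Finset K) : Set K)) ⊆
      (ConjClasses.map (MonoidHom.snd H K)) ''
        (ConjClasses.mk '' (((unionGen SH SK) ^ n : Finset (H × K)) : Set (H × K))) := by
    rintro _ ⟨k, hk, rfl⟩
    exact ⟨ConjClasses.mk (1, k), ⟨(1, k), h1 n k hk, rfl⟩, rfl⟩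
  have hfin : (ConjClasses.mk '' (((unionGen SH SK) ^ n : Finset (H × K)) : Set (H × K))).Finite :=
    (Finset.finite_toSet _).image _
  exact (Set.ncard_le_ncard h2 (hfin.image _)).trans (Set.ncard_image_le hfin)

end prod

section final

variable {G : Type} [Group G]

lemma card_pow_real_bound [DecidableEq G] (S : Finset G) (h1 : (1 : G) ∈ S) (n : ℕ) :
    (((S ^ n : Finset G).card : ℝ)) ^ ((1 : ℝ) / (n : ℝ)) ≤ (S.card : ℝ) := by
  apply bdd_of_le (u := fun n => (((S ^ n : Finset G).card : ℝ)))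
  · have : 0 < S.card := Finset.card_pos.mpr ⟨1, h1⟩
    exact_mod_cast this
  · intro n; positivity
  · intro n
    have := Finset.card_pow_le (s := S) (n := n)
    exact_mod_cast this

lemma ncard_classes_le_card (S : Finset G) :
    (ConjClasses.mk '' (S : Set G)).ncard ≤ S.card := by
  rw [← Set.ncard_coe_finset S]
  exact Set.ncard_image_le (Finset.finite_toSet _)

/-- the property of the frozen statement for one group -/
def Indep (G : Type) [Group G] : Prop :=
      (∃ S : Finset G, Subgroup.closure (S : Set G) = ⊤ ∧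
        Filter.limsup (fun n : ℕ =>
            ((Set.ncard (ConjClasses.mk ''
              {g : G | ∃ l : List G, l.length ≤ n ∧ (∀ x ∈ l, x ∈ S ∨ x⁻¹ ∈ S) ∧ l.prod = g}) : ℕ) : ℝ)
              ^ ((1 : ℝ) / (n : ℝ))) Filter.atTop
          = Filter.limsup (fun n : ℕ =>
            ((Set.ncard
              {g : G | ∃ l : List G, l.length ≤ n ∧ (∀ x ∈ l, x ∈ S ∨ x⁻¹ ∈ S) ∧ l.prod = g} : ℕ) : ℝ)
              ^ ((1 : ℝ) / (n : ℝ))) Filter.atTop) →
      ∀ T : Finset G, Subgroup.closure (T : Set G) = ⊤ →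
        Filter.limsup (fun n : ℕ =>
            ((Set.ncard (ConjClasses.mk ''
              {g : G | ∃ l : List G, l.length ≤ n ∧ (∀ x ∈ l, x ∈ T ∨ x⁻¹ ∈ T) ∧ l.prod = g}) : ℕ) : ℝ)
              ^ ((1 : ℝ) / (n : ℝ))) Filter.atTop
          = Filter.limsup (fun n : ℕ =>
            ((Set.ncard
              {g : G | ∃ l : List G, l.length ≤ n ∧ (∀ x ∈ l, x ∈ T ∨ x⁻¹ ∈ T) ∧ l.prod = g} : ℕ) : ℝ)
              ^ ((1 : ℝ) / (n : ℝ))) Filter.atTop

theorem not_indep_prod {H K : Type} [Group H] [Group K] [DecidableEq H] [DecidableEq K] (SH : Finset H) (SK : Finset K)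
    (h1H : (1 : H) ∈ SH) (hinvH : ∀ x ∈ SH, x⁻¹ ∈ SH) (hclH : Subgroup.closure (SH : Set H) = ⊤)
    (hinvK : ∀ x ∈ SK, x⁻¹ ∈ SK) (hclK : Subgroup.closure (SK : Set K) = ⊤)
    (Cc A B κ Cu d : ℕ) (hCc : 0 < Cc) (hCu : 0 < Cu)
    (hc : ∀ n, (ConjClasses.mk '' ((SH ^ n : Finset H) : Set H)).ncard ≤ Cc * A ^ n)
    (ha : ∀ n, B ^ n ≤ (SH ^ n).card)
    (hku : ∀ n, (SK ^ n).card ≤ Cu * (n + 1) ^ d * κ ^ n)
    (hkl : ∀ n, 1 ≤ n → κ ^ n ≤ (n + 1) * (ConjClasses.mk '' ((SK ^ n : Finset K) : Set K)).ncard)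
    (hcard : SH.card ≤ κ) (j : ℕ) (hj : 1 ≤ j) (hAj : A ^ j ≤ κ) (hBj : κ < B ^ j) :
    ¬ Indep (H × K) := by
  intro hind
  -- first generating set
  have hcl : Subgroup.closure (unionGen SH SK : Set (H × K)) = ⊤ := closure_unionGen hclH hclK
  have hball : ∀ n, {g : H × K | ∃ l : List (H × K), l.length ≤ n ∧
      (∀ x ∈ l, x ∈ unionGen SH SK ∨ x⁻¹ ∈ unionGen SH SK) ∧ l.prod = g} =
        (((unionGen SH SK) ^ n : Finset (H × K)) : Set (H × K)) :=
    fun n => ball_eq_pow _ (one_mem_unionGen h1H) (inv_mem_unionGen hinvH hinvK) n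
  have hup : ∀ n, ((unionGen SH SK) ^ n).card ≤ Cu * (n + 1) ^ (d + 1) * κ ^ n := by
    intro n
    refine (card_unionGen_pow_le SH SK n).trans ?_
    have : ∀ i ∈ Finset.range (n + 1), (SH ^ i).card * (SK ^ (n - i)).card ≤
        Cu * (n + 1) ^ d * κ ^ n := by
      intro i hi
      have hi' : i ≤ n := by simpa [Nat.lt_succ_iff] using hi
      have h2 : (SH ^ i).card ≤ κ ^ i :=
        (Finset.card_pow_le).trans (Nat.pow_le_pow_left hcard i)
      have h3 : (SK ^ (n - i)).card ≤ Cu * (n + 1) ^ d * κ ^ (n - i) := by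
        refine (hku (n - i)).trans ?_
        gcongr
        omega
      calc (SH ^ i).card * (SK ^ (n - i)).card ≤ κ ^ i * (Cu * (n + 1) ^ d * κ ^ (n - i)) :=
            Nat.mul_le_mul h2 h3
        _ = Cu * (n + 1) ^ d * (κ ^ i * κ ^ (n - i)) := by ring
        _ = Cu * (n + 1) ^ d * κ ^ n := by rw [← pow_add]; congr 2; omega
    refine (Finset.sum_le_sum this).trans ?_
    rw [Finset.sum_const, Finset.card_range, smul_eq_mul]
    apply le_of_eq
    ring
  have hlow : ∀ n, 1 ≤ n → κ ^ n ≤ (n + 1) *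
      (ConjClasses.mk '' (((unionGen SH SK) ^ n : Finset (H × K)) : Set (H × K))).ncard := by
    intro n hn
    exact (hkl n hn).trans (Nat.mul_le_mul_left _ (ncard_classes_le_unionGen_pow SH SK n))
  have hle : ∀ n, (ConjClasses.mk '' (((unionGen SH SK) ^ n : Finset (H × K)) :
      Set (H × K))).ncard ≤ ((unionGen SH SK) ^ n).card := fun n => ncard_classes_le_card _
  have hM := card_pow_real_bound (unionGen SH SK) (one_mem_unionGen h1H)
  have hM' : ∀ n : ℕ, (((ConjClasses.mk '' (((unionGen SH SK) ^ n : Finset (H × K)) :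
      Set (H × K))).ncard : ℝ)) ^ ((1 : ℝ) / (n : ℝ)) ≤ ((unionGen SH SK).card : ℝ) := by
    intro n
    refine le_trans ?_ (hM n)
    apply Real.rpow_le_rpow (by positivity) _ (by positivity)
    exact_mod_cast hle n
  have hcu : (0 : ℝ) < Cu := by exact_mod_cast hCu
  have hccu : (0 : ℝ) < Cc * Cu := by
    have : (0 : ℝ) < Cc := by exact_mod_cast hCc
    positivity
  have e1 : Filter.limsup (fun n : ℕ => ((((unionGen SH SK) ^ n).card : ℝ)) ^
      ((1 : ℝ) / (n : ℝ))) atTop ≤ κ := by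
    apply limsup_root_le (u := fun n => (((unionGen SH SK) ^ n).card : ℝ))
      (fun n => by positivity) (Cu : ℝ) hcu (d + 1) κ (by positivity)
    intro n _
    exact_mod_cast hup n
  have e2 : Filter.limsup (fun n : ℕ => (((ConjClasses.mk '' (((unionGen SH SK) ^ n :
      Finset (H × K)) : Set (H × K))).ncard : ℝ)) ^ ((1 : ℝ) / (n : ℝ))) atTop ≤ κ := by
    apply limsup_root_le (u := fun n => ((ConjClasses.mk '' (((unionGen SH SK) ^ n :
      Finset (H × K)) : Set (H × K))).ncard : ℝ))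
      (fun n => by positivity) (Cu : ℝ) hcu (d + 1) κ (by positivity)
    intro n _
    exact_mod_cast (hle n).trans (hup n)
  have e3 : (κ : ℝ) ≤ Filter.limsup (fun n : ℕ => (((ConjClasses.mk '' (((unionGen SH SK) ^ n :
      Finset (H × K)) : Set (H × K))).ncard : ℝ)) ^ ((1 : ℝ) / (n : ℝ))) atTop := by
    apply le_limsup_root (u := fun n => ((ConjClasses.mk '' (((unionGen SH SK) ^ n :
      Finset (H × K)) : Set (H × K))).ncard : ℝ))
      (fun n => by positivity) 1 one_pos 1 κ (by positivity) _ _ hM'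
    intro n hn
    have := hlow n hn
    rw [one_mul, pow_one]
    exact_mod_cast this
  have e4 : (κ : ℝ) ≤ Filter.limsup (fun n : ℕ => ((((unionGen SH SK) ^ n).card : ℝ)) ^
      ((1 : ℝ) / (n : ℝ))) atTop := by
    apply le_limsup_root (u := fun n => (((unionGen SH SK) ^ n).card : ℝ))
      (fun n => by positivity) 1 one_pos 1 κ (by positivity) _ _ hM
    intro n hn
    have := (hlow n hn).trans (Nat.mul_le_mul_left _ (hle n))
    rw [one_mul, pow_one]
    exact_mod_cast this
  -- second generating set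
  have hsubj : SH ⊆ SH ^ j := Finset.subset_pow h1H (by omega)
  have h1Hj : (1 : H) ∈ SH ^ j := hsubj h1H
  have hinvHj : ∀ x ∈ SH ^ j, x⁻¹ ∈ SH ^ j := by
    have hS : SH⁻¹ = SH := by
      apply Finset.Subset.antisymm
      · intro x hx
        rw [Finset.mem_inv'] at hx
        simpa using hinvH _ hx
      · intro x hx
        rw [Finset.mem_inv']
        exact hinvH x hx
    have hS2 : (SH ^ j)⁻¹ = SH ^ j := by rw [← inv_pow, hS]
    intro x hx
    rw [← hS2]
    exact Finset.inv_mem_inv hx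
  have hclHj : Subgroup.closure ((SH ^ j : Finset H) : Set H) = ⊤ := by
    rw [eq_top_iff, ← hclH]
    exact Subgroup.closure_mono (by exact_mod_cast hsubj)
  have hclT : Subgroup.closure (unionGen (SH ^ j) SK : Set (H × K)) = ⊤ :=
    closure_unionGen hclHj hclK
  have hballT : ∀ n, {g : H × K | ∃ l : List (H × K), l.length ≤ n ∧
      (∀ x ∈ l, x ∈ unionGen (SH ^ j) SK ∨ x⁻¹ ∈ unionGen (SH ^ j) SK) ∧ l.prod = g} =
        (((unionGen (SH ^ j) SK) ^ n : Finset (H × K)) : Set (H × K)) :=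
    fun n => ball_eq_pow _ (one_mem_unionGen h1Hj) (inv_mem_unionGen hinvHj hinvK) n
  have hupT : ∀ n, (ConjClasses.mk '' (((unionGen (SH ^ j) SK) ^ n :
      Finset (H × K)) : Set (H × K))).ncard ≤ Cc * Cu * (n + 1) ^ (d + 1) * κ ^ n := by
    intro n
    refine (ncard_classes_unionGen_pow_le (SH ^ j) SK n).trans ?_
    have : ∀ i ∈ Finset.range (n + 1),
        (ConjClasses.mk '' (((SH ^ j) ^ i : Finset H) : Set H)).ncard * (SK ^ (n - i)).card ≤
        Cc * Cu * (n + 1) ^ d * κ ^ n := by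
      intro i hi
      have hi' : i ≤ n := by simpa [Nat.lt_succ_iff] using hi
      have h2 : (ConjClasses.mk '' (((SH ^ j) ^ i : Finset H) : Set H)).ncard ≤ Cc * κ ^ i := by
        rw [← pow_mul]
        refine (hc (j * i)).trans ?_
        rw [pow_mul]
        exact Nat.mul_le_mul_left _ (Nat.pow_le_pow_left hAj i)
      have h3 : (SK ^ (n - i)).card ≤ Cu * (n + 1) ^ d * κ ^ (n - i) := by
        refine (hku (n - i)).trans ?_
        gcongr
        omega
      calc _ ≤ (Cc * κ ^ i) * (Cu * (n + 1) ^ d * κ ^ (n - i)) :=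
            Nat.mul_le_mul h2 h3
        _ = Cc * Cu * (n + 1) ^ d * (κ ^ i * κ ^ (n - i)) := by ring
        _ = Cc * Cu * (n + 1) ^ d * κ ^ n := by rw [← pow_add]; congr 2; omega
    refine (Finset.sum_le_sum this).trans ?_
    rw [Finset.sum_const, Finset.card_range, smul_eq_mul]
    apply le_of_eq
    ring
  have hlowT : ∀ n, (B ^ j) ^ n ≤ ((unionGen (SH ^ j) SK) ^ n).card := by
    intro n
    refine le_trans ?_ (card_le_card_unionGen_pow (SH ^ j) SK n)
    rw [← pow_mul, ← pow_mul]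
    exact ha _
  have e5 : Filter.limsup (fun n : ℕ => (((ConjClasses.mk '' (((unionGen (SH ^ j) SK) ^ n :
      Finset (H × K)) : Set (H × K))).ncard : ℝ)) ^ ((1 : ℝ) / (n : ℝ))) atTop ≤ κ := by
    apply limsup_root_le (u := fun n => ((ConjClasses.mk '' (((unionGen (SH ^ j) SK) ^ n :
      Finset (H × K)) : Set (H × K))).ncard : ℝ))
      (fun n => by positivity) (Cc * Cu : ℝ) hccu (d + 1) κ (by positivity)
    intro n _
    exact_mod_cast (hupT n)
  have e6 : ((B ^ j : ℕ) : ℝ) ≤ Filter.limsup (fun n : ℕ =>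
      ((((unionGen (SH ^ j) SK) ^ n).card : ℝ)) ^ ((1 : ℝ) / (n : ℝ))) atTop := by
    apply le_limsup_root (u := fun n => (((unionGen (SH ^ j) SK) ^ n).card : ℝ))
      (fun n => by positivity) 1 one_pos 0 _ (by positivity) _ _
      (card_pow_real_bound (unionGen (SH ^ j) SK) (one_mem_unionGen h1Hj))
    intro n hn
    have := hlowT n
    rw [one_mul, pow_zero, one_mul]
    exact_mod_cast this
  have h := hind ⟨unionGen SH SK, hcl, by
    simp only [hball, Set.ncard_coe_finset]
    exact le_antisymm (e2.trans e4) (e1.trans e3)⟩ (unionGen (SH ^ j) SK) hclT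
  simp only [hballT, Set.ncard_coe_finset] at h
  have hlt : (κ : ℝ) < ((B ^ j : ℕ) : ℝ) := by exact_mod_cast hBj
  linarith

end final

end Pool.Agent.Lib.MP_2bc940_al
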