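import Mathlib
import Pool.Agent.Lib.MP_2bc940_al.Lamplighter
import Pool.Agent.Lib.MP_2bc940_al.GuptaSidki
import Pool.Agent.Lib.MP_2bc940_al.Product

set_option autoImplicit false

namespace Pool.Agent.Lib.MP_2bc940_al

open Pointwise Multiplicative

open Classical in
/-- the symmetric generating set of the Gupta-Sidki group -/
noncomputable def PG : Finset GS :=
  {1, ⟨A 1, A_mem⟩, (⟨A 1, A_mem⟩ : GS)⁻¹, ⟨t, t_mem⟩, (⟨t, t_mem⟩ : GS)⁻¹}

lemma one_mem_PG : (1 : GS) ∈ PG := by simp [PG]

lemma inv_mem_PG : ∀ s ∈ PG, s⁻¹ ∈ PG := by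
  intro s hs
  simp only [PG, Finset.mem_insert, Finset.mem_singleton] at hs ⊢
  rcases hs with rfl | rfl | rfl | rfl | rfl
  · left; exact inv_one
  · right; right; left; rfl
  · right; left; exact inv_inv _
  · right; right; right; right; rfl
  · right; right; right; left; exact inv_inv _

lemma card_PG_le : PG.card ≤ 5 := by
  classical
  unfold PG
  refine (Finset.card_insert_le _ _).trans ?_
  refine Nat.succ_le_succ ((Finset.card_insert_le _ _).trans ?_)
  refine Nat.succ_le_succ ((Finset.card_insert_le _ _).trans ?_)
  refine Nat.succ_le_succ ((Finset.card_insert_le _ _).trans ?_)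
  simp

lemma closure_PG : Subgroup.closure (PG : Set GS) = ⊤ := by
  rw [eq_top_iff]
  have h : Subgroup.closure ((Subtype.val : GS → TW) ⁻¹' {A 1, t}) = ⊤ :=
    Subgroup.closure_closure_coe_preimage
  rw [← h]
  apply Subgroup.closure_mono
  intro x hx
  simp only [Set.mem_preimage, Set.mem_insert_iff, Set.mem_singleton_iff] at hx
  simp only [PG, Finset.coe_insert, Finset.coe_singleton, Set.mem_insert_iff,
    Set.mem_singleton_iff]
  rcases hx with hx | hx
  · right; left; exact Subtype.ext hx
  · right; right; right; left; exact Subtype.ext hx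

lemma card_classes : Fintype.card (ConjClasses (Equiv.Perm (Fin 5))) ≤ 16 := by
  have hinj : Function.Injective (fun c : ConjClasses (Equiv.Perm (Fin 5)) =>
      Quotient.liftOn c (fun σ => σ.partition)
        (fun a b hab => Equiv.Perm.partition_eq_of_isConj.mp hab)) := by
    intro a b
    induction a using Quotient.inductionOn with
    | _ a =>
      induction b using Quotient.inductionOn with
      | _ b =>
        intro h
        apply Quotient.sound
        exact Equiv.Perm.partition_eq_of_isConj.mpr h
  have h1 := Fintype.card_le_of_injective _ hinj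
  refine h1.trans ?_
  refine (Fintype.card_le_of_surjective _ Nat.Partition.ofComposition_surj).trans ?_
  rw [composition_card]
  simp

theorem counterexample_gen (D E : Type) [Group D] [Fintype D] [CommGroup E] [Fintype E]
    [Fintype (ConjClasses D)] (k : ℕ) (hk0 : 0 < k) (hk : Fintype.card (ConjClasses D) ≤ k)
    (hDE : Fintype.card D * (5 * Fintype.card D) ≤ Fintype.card E) (j : ℕ) (hj : 1 ≤ j)
    (hj1 : (5 * k) ^ j ≤ Fintype.card E) (hj2 : Fintype.card E < (Fintype.card D) ^ j) :
    ∃ (G : Type) (inst : Group G), ¬ @Indep G inst := by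
  classical
  have hinf := GS_infinite
  refine ⟨Subgroup.closure ((gens D PG : Finset _) : Set (RegularWreathProduct D GS)) ×
    Subgroup.closure ((gens E PZ : Finset _) : Set (RegularWreathProduct E (Multiplicative ℤ))),
    inferInstance, ?_⟩
  have hcard1 : (gens D PG).card ≤ Fintype.card E := by
    refine (card_gens_le PG).trans (le_trans ?_ hDE)
    have := card_PG_le
    gcongr
  have hpos : 0 < Fintype.card E := Fintype.card_pos
  apply not_indep_prod (subS (gens D PG)) (subS (gens E PZ)) (Cc := k) (A := 5 * k)
    (B := Fintype.card D) (κ := Fintype.card E) (Cu := 2 * Fintype.card E) (d := 2) (j := j)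
  · rw [mem_subS]
    exact one_mem_gens one_mem_PG
  · intro x hx
    rw [mem_subS] at hx ⊢
    exact inv_mem_gens inv_mem_PG _ hx
  · exact closure_subS _
  · intro x hx
    rw [mem_subS] at hx ⊢
    exact inv_mem_gens inv_mem_PZ _ hx
  · exact closure_subS _
  · exact hk0
  · omega
  · intro n
    refine (class_bound (D := D) one_mem_PG closure_PG GS_torsion n).trans ?_
    calc PG.card ^ n * (Fintype.card (ConjClasses D)) ^ (n + 1) ≤ 5 ^ n * k ^ (n + 1) :=
          Nat.mul_le_mul (Nat.pow_le_pow_left card_PG_le n)
            (Nat.pow_le_pow_left hk (n + 1))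
      _ = k * (5 * k) ^ n := by
          rw [pow_succ, mul_pow]
          ring
  · intro n
    rw [card_subS_pow]
    exact growth_lower (D := D) one_mem_PG inv_mem_PG closure_PG n
  · intro n
    rw [card_subS_pow]
    refine (card_lamp_pow_le (D := E) n).trans ?_
    have : (2 * n + 1) ≤ 2 * (n + 1) := by omega
    calc (n + 1) * ((2 * n + 1) * (Fintype.card E) ^ (n + 1))
        ≤ (n + 1) * ((2 * (n + 1)) * (Fintype.card E) ^ (n + 1)) := by gcongr
      _ = 2 * Fintype.card E * (n + 1) ^ 2 * (Fintype.card E) ^ n := by ring
  · intro n hn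
    exact class_lower (D := E) n hn
  · have := card_subS_pow (gens D PG) 1
    rw [pow_one, pow_one] at this
    rw [this]
    exact hcard1
  · exact hj
  · exact hj1
  · exact hj2

theorem counterexample : ∃ (G : Type) (inst : Group G), ¬ @Indep G inst := by
  have hD : Fintype.card (Equiv.Perm (Fin 5)) = 120 := by
    simp only [Fintype.card_perm, Fintype.card_fin]
    rfl
  have hE : Fintype.card (Multiplicative (ZMod 512000)) = 512000 := by
    simp only [Fintype.card_multiplicative, ZMod.card]
  apply counterexample_gen (Equiv.Perm (Fin 5)) (Multiplicative (ZMod 512000)) 16 (by norm_num)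
    card_classes _ 3 (by norm_num) _ _
  · rw [hD, hE]; norm_num
  · rw [hE]; norm_num
  · rw [hD, hE]; norm_num

end Pool.Agent.Lib.MP_2bc940_al
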